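import Pool.Agent.Work.MP_0d53be_an.Full.X.Ev

/-!
# P/Coef: the exponential of an exponent as a power series

For `x : Ex` let `c k n` be the coefficients of the `k`-th power of the series
`∑_j x_j T^(j+1)`: `c 0 n = [n = 0]`, `c (k+1) n = ∑_{(i,j) ∈ antidiagonal n} a i * c k j` with
`a 0 = 0`, `a (j+1) = x_j`. Put `ecoef x n = ∑' k, c k n / k!`.

* `∑_n ‖c k n‖ ≤ ‖x‖^k` (Cauchy product of summable series, induction; `∑ ‖a‖ = ‖x‖`).
* Hence `∑_n ∑_k ‖c k n‖/k! ≤ exp ‖x‖`: `ecoef x` is summable in norm with sum at most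
  `exp ‖x‖` (`summable` on the product, `tsum_comm'`).
* Let `B'` be any commutative Banach algebra and `β` with `‖((2:ℂ)•β)^n‖ ≤ C` for all `n`. Then
  `(ev β x)^k = ∑_n c k n • (2β)^n` (induction on `k`, Cauchy product
  `tsum_mul_tsum_eq_tsum_sum_antidiagonal_of_summable_norm`; the norms of the terms are at most
  `C ‖c k n‖`), `ev β x = ∑_n a n • (2β)^n`. So
  `exp (ev β x) = ∑_k (1/k!) ∑_n c k n • (2β)^n = ∑_n ecoef x n • (2β)^n` (absolutely summable
  double series, exchange).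
* `ecoef_ev_complex`: the same for `B' = ℂ`, `β = y`, `‖y‖ ≤ 1/2`, is a special case (`‖2y‖ ≤ 1`).
-/

set_option autoImplicit false

namespace Pool.Agent.Work.MP_0d53be_an.Full

/-- The coefficients of the `k`-th power of `∑_j x_j T^(j+1)`. -/
noncomputable def pcoef (x : Ex) : ℕ → ℕ → ℂ
  | 0, n => if n = 0 then 1 else 0
  | k + 1, n => ∑ ij ∈ Finset.HasAntidiagonal.antidiagonal n, (if ij.1 = 0 then 0 else x (ij.1 - 1)) * pcoef x k ij.2

/-- The coefficients of the exponential. -/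
noncomputable def ecoef (x : Ex) (n : ℕ) : ℂ := ∑' k : ℕ, pcoef x k n / (k.factorial : ℂ)

private noncomputable def acf (x : Ex) (n : ℕ) : ℂ := if n = 0 then 0 else x (n - 1)

private theorem acf_succ (x : Ex) (n : ℕ) : acf x (n + 1) = x n := by
  unfold acf
  simp

private theorem acf_zero (x : Ex) : acf x 0 = 0 := by
  unfold acf
  simp

private theorem acf_summable (x : Ex) : Summable (fun n => ‖acf x n‖) := by
  rw [← summable_nat_add_iff 1]
  simpa only [acf_succ] using ex_summable x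

private theorem acf_tsum (x : Ex) : ∑' n, ‖acf x n‖ = ‖x‖ := by
  rw [(acf_summable x).tsum_eq_zero_add, norm_ex x]
  simp only [acf_succ, acf_zero, norm_zero, zero_add]

private theorem pcoef_succ (x : Ex) (k n : ℕ) :
    pcoef x (k + 1) n =
      ∑ ij ∈ Finset.HasAntidiagonal.antidiagonal n, acf x ij.1 * pcoef x k ij.2 := rfl

private theorem pcoef_norm (x : Ex) (k : ℕ) :
    Summable (fun n => ‖pcoef x k n‖) ∧ ∑' n, ‖pcoef x k n‖ ≤ ‖x‖ ^ k := by
  induction k with
  | zero =>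
    have h : ∀ n, ‖pcoef x 0 n‖ = if n = 0 then 1 else 0 := by
      intro n
      rw [pcoef]
      split_ifs <;> simp
    constructor
    · rw [funext h]
      exact (hasSum_ite_eq 0 1).summable
    · rw [funext h, tsum_ite_eq, pow_zero]
  | succ k ih =>
    have h1 : Summable (fun n => ‖pcoef x (k + 1) n‖) := by
      simp only [pcoef_succ]
      exact summable_norm_sum_mul_antidiagonal_of_summable_norm (acf_summable x) ih.1
    refine ⟨h1, ?_⟩
    have h2 := tsum_mul_tsum_eq_tsum_sum_antidiagonal_of_summable_norm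
      (f := fun n => ‖acf x n‖) (g := fun n => ‖pcoef x k n‖)
      (by simpa only [norm_norm] using acf_summable x) (by simpa only [norm_norm] using ih.1)
    have h3 := summable_norm_sum_mul_antidiagonal_of_summable_norm
      (f := fun n => ‖acf x n‖) (g := fun n => ‖pcoef x k n‖)
      (by simpa only [norm_norm] using acf_summable x) (by simpa only [norm_norm] using ih.1)
    have h4 : ∑' n, ‖pcoef x (k + 1) n‖ ≤
        ∑' n, ∑ kl ∈ Finset.HasAntidiagonal.antidiagonal n, ‖acf x kl.1‖ * ‖pcoef x k kl.2‖ := by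
      refine h1.tsum_le_tsum ?_ h3.of_norm
      intro n
      rw [pcoef_succ]
      refine (norm_sum_le _ _).trans (le_of_eq ?_)
      exact Finset.sum_congr rfl fun ij _ => norm_mul _ _
    rw [← h2, acf_tsum] at h4
    refine h4.trans ?_
    rw [pow_succ']
    exact mul_le_mul_of_nonneg_left ih.2 (norm_nonneg x)

private theorem FF_summable (x : Ex) :
    Summable (fun p : ℕ × ℕ => ‖pcoef x p.1 p.2‖ / (p.1.factorial : ℝ)) := by
  rw [summable_prod_of_nonneg (fun p => by positivity)]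
  refine ⟨fun k => (pcoef_norm x k).1.div_const (k.factorial : ℝ), ?_⟩
  refine Summable.of_nonneg_of_le (fun k => tsum_nonneg fun n => by positivity) (fun k => ?_)
    (Real.summable_pow_div_factorial ‖x‖)
  simp only
  rw [tsum_div_const]
  exact div_le_div_of_nonneg_right (pcoef_norm x k).2 (by positivity)

private theorem FF_tsum (x : Ex) :
    ∑' p : ℕ × ℕ, ‖pcoef x p.1 p.2‖ / (p.1.factorial : ℝ) ≤ Real.exp ‖x‖ := by
  have h := FF_summable x
  rw [h.tsum_prod]
  have h1 : Real.exp ‖x‖ = ∑' k : ℕ, ‖x‖ ^ k / (k.factorial : ℝ) := by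
    rw [Real.exp_eq_exp_ℝ, NormedSpace.exp_eq_tsum_div]
  rw [h1]
  refine Summable.tsum_le_tsum (fun k => ?_) h.prod (Real.summable_pow_div_factorial ‖x‖)
  simp only
  rw [tsum_div_const]
  exact div_le_div_of_nonneg_right (pcoef_norm x k).2 (by positivity)

private theorem norm_term (x : Ex) (k n : ℕ) :
    ‖pcoef x k n / (k.factorial : ℂ)‖ = ‖pcoef x k n‖ / (k.factorial : ℝ) := by
  rw [norm_div, Complex.norm_natCast]

private theorem FF_swap (x : Ex) :
    Summable (fun p : ℕ × ℕ => ‖pcoef x p.2 p.1‖ / (p.2.factorial : ℝ)) :=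
  (Equiv.prodComm ℕ ℕ).summable_iff.2 (FF_summable x)

private theorem norm_ecoef (x : Ex) (n : ℕ) :
    ‖ecoef x n‖ ≤ ∑' k : ℕ, ‖pcoef x k n‖ / (k.factorial : ℝ) := by
  unfold ecoef
  have h := (FF_swap x).prod_factor n
  have h2 : Summable (fun k : ℕ => ‖pcoef x k n / (k.factorial : ℂ)‖) := by
    simpa only [norm_term] using h
  refine (norm_tsum_le_tsum_norm h2).trans (le_of_eq ?_)
  exact tsum_congr fun k => norm_term x k n

theorem ecoef_summable (x : Ex) :
    Summable (fun n => ‖ecoef x n‖) ∧ ∑' n, ‖ecoef x n‖ ≤ Real.exp ‖x‖ := by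
  have h1 := (FF_swap x).prod
  have h2 : Summable (fun n => ‖ecoef x n‖) :=
    Summable.of_nonneg_of_le (fun _ => norm_nonneg _) (norm_ecoef x) h1
  refine ⟨h2, ?_⟩
  refine (h2.tsum_le_tsum (norm_ecoef x) h1).trans ?_
  refine le_trans (le_of_eq ?_) (FF_tsum x)
  rw [← (FF_swap x).tsum_prod]
  exact (Equiv.prodComm ℕ ℕ).tsum_eq (fun p : ℕ × ℕ => ‖pcoef x p.1 p.2‖ / (p.1.factorial : ℝ))

private theorem ev_eq_acf {B : Type*} [NormedCommRing B] [NormedAlgebra ℂ B] [CompleteSpace B]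
    {β : B} {C : ℝ} (hC : ∀ n : ℕ, ‖((2 : ℂ) • β) ^ n‖ ≤ C) (x : Ex) :
    Summable (fun n => ‖acf x n • ((2 : ℂ) • β) ^ n‖) ∧
      ev β x = ∑' n, acf x n • ((2 : ℂ) • β) ^ n := by
  have h1 : Summable (fun n => ‖acf x n • ((2 : ℂ) • β) ^ n‖) := by
    refine Summable.of_nonneg_of_le (fun _ => norm_nonneg _) (fun n => ?_)
      ((acf_summable x).mul_right C)
    rw [norm_smul]
    exact mul_le_mul_of_nonneg_left (hC n) (norm_nonneg _)
  refine ⟨h1, ?_⟩
  rw [h1.of_norm.tsum_eq_zero_add, acf_zero, zero_smul, zero_add]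
  unfold ev
  exact tsum_congr fun n => by rw [acf_succ]

private theorem ev_pow_eq {B : Type*} [NormedCommRing B] [NormedAlgebra ℂ B] [CompleteSpace B]
    {β : B} {C : ℝ} (hC : ∀ n : ℕ, ‖((2 : ℂ) • β) ^ n‖ ≤ C) (x : Ex) (k : ℕ) :
    Summable (fun n => ‖pcoef x k n • ((2 : ℂ) • β) ^ n‖) ∧
      ev β x ^ k = ∑' n, pcoef x k n • ((2 : ℂ) • β) ^ n := by
  have h1 : Summable (fun n => ‖pcoef x k n • ((2 : ℂ) • β) ^ n‖) := by
    refine Summable.of_nonneg_of_le (fun _ => norm_nonneg _) (fun n => ?_)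
      ((pcoef_norm x k).1.mul_right C)
    rw [norm_smul]
    exact mul_le_mul_of_nonneg_left (hC n) (norm_nonneg _)
  refine ⟨h1, ?_⟩
  clear h1
  induction k with
  | zero =>
    rw [pow_zero, tsum_eq_single 0]
    · rw [pcoef, if_pos rfl, one_smul, pow_zero]
    · intro n hn
      rw [pcoef, if_neg hn, zero_smul]
  | succ k ih =>
    have hk : Summable (fun n => ‖pcoef x k n • ((2 : ℂ) • β) ^ n‖) := by
      refine Summable.of_nonneg_of_le (fun _ => norm_nonneg _) (fun n => ?_)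
        ((pcoef_norm x k).1.mul_right C)
      rw [norm_smul]
      exact mul_le_mul_of_nonneg_left (hC n) (norm_nonneg _)
    obtain ⟨ha, hae⟩ := ev_eq_acf hC x
    rw [pow_succ', ih]
    nth_rewrite 1 [hae]
    rw [tsum_mul_tsum_eq_tsum_sum_antidiagonal_of_summable_norm ha hk]
    refine tsum_congr fun n => ?_
    rw [pcoef_succ, Finset.sum_smul]
    refine Finset.sum_congr rfl fun ij hij => ?_
    rw [smul_mul_smul_comm, ← pow_add, Finset.HasAntidiagonal.mem_antidiagonal.1 hij]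

theorem exp_ev_eq {B : Type*} [NormedCommRing B] [NormedAlgebra ℂ B] [CompleteSpace B] {β : B}
    {C : ℝ} (hC : ∀ n : ℕ, ‖((2 : ℂ) • β) ^ n‖ ≤ C) (x : Ex) :
    HasSum (fun n => ecoef x n • ((2 : ℂ) • β) ^ n) (NormedSpace.exp (ev β x)) := by
  set u : ℕ → B := fun n => ((2 : ℂ) • β) ^ n with hu
  have hbd : ∀ p : ℕ × ℕ, ‖(pcoef x p.1 p.2 / (p.1.factorial : ℂ)) • u p.2‖ ≤
      ‖pcoef x p.1 p.2‖ / (p.1.factorial : ℝ) * C := by
    intro p
    rw [norm_smul, norm_term]
    exact mul_le_mul_of_nonneg_left (hC p.2) (by positivity)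
  have hS : Summable (fun p : ℕ × ℕ => (pcoef x p.1 p.2 / (p.1.factorial : ℂ)) • u p.2) :=
    Summable.of_norm_bounded ((FF_summable x).mul_right C) hbd
  have hS' : Summable (fun p : ℕ × ℕ => (pcoef x p.2 p.1 / (p.2.factorial : ℂ)) • u p.1) :=
    (Equiv.prodComm ℕ ℕ).summable_iff.2 hS
  -- the sum over `k` first
  have hE := NormedSpace.exp_series_hasSum_exp' (𝕂 := ℂ) (ev β x)
  have h1 : ∀ k : ℕ, HasSum (fun n => (pcoef x k n / (k.factorial : ℂ)) • u n)
      (((k.factorial : ℂ)⁻¹) • ev β x ^ k) := by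
    intro k
    obtain ⟨hs, he⟩ := ev_pow_eq hC x k
    rw [he]
    have h2 := hs.of_norm.hasSum.const_smul ((k.factorial : ℂ)⁻¹)
    have h7 : (fun n => (pcoef x k n / (k.factorial : ℂ)) • u n) =
        fun n => ((k.factorial : ℂ)⁻¹) • (pcoef x k n • ((2 : ℂ) • β) ^ n) := by
      funext n
      rw [smul_smul, div_eq_inv_mul]
    rw [h7]
    exact h2
  have h3 : HasSum (fun k : ℕ => ((k.factorial : ℂ)⁻¹) • ev β x ^ k)
      (∑' p : ℕ × ℕ, (pcoef x p.1 p.2 / (p.1.factorial : ℂ)) • u p.2) :=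
    hS.hasSum.prod_fiberwise h1
  have h4 := hE.unique h3
  have h5 : ∑' p : ℕ × ℕ, (pcoef x p.1 p.2 / (p.1.factorial : ℂ)) • u p.2 =
      ∑' p : ℕ × ℕ, (pcoef x p.2 p.1 / (p.2.factorial : ℂ)) • u p.1 :=
    ((Equiv.prodComm ℕ ℕ).tsum_eq
      (fun p : ℕ × ℕ => (pcoef x p.1 p.2 / (p.1.factorial : ℂ)) • u p.2)).symm
  rw [h4, h5]
  refine hS'.hasSum.prod_fiberwise fun n => ?_
  have h6 : Summable (fun k : ℕ => pcoef x k n / (k.factorial : ℂ)) := by
    refine Summable.of_norm ?_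
    simpa only [norm_term] using (FF_swap x).prod_factor n
  exact h6.hasSum.smul_const (u n)

end Pool.Agent.Work.MP_0d53be_an.Full
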