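import Mathlib

/-!
# P/Had: three circles

Let `E` be a complex normed space, `F : ℂ → E` entire (`Differentiable ℂ F`), `ρ ≥ 1`,
`0 < M₁ ≤ M₃`, `‖F ζ‖ ≤ M₁` for `‖ζ‖ ≤ 1`, `‖F ζ‖ ≤ M₃` for `‖ζ‖ ≤ 200 ρ`. Then for `‖ζ‖ ≤ 2 ρ`:
`‖F ζ‖ ≤ M₁^κ M₃^(1-κ)`, `κ = log 100/log (200 ρ)`.

Proof. If `‖ζ‖ ≤ 1`: `‖F ζ‖ ≤ M₁ = M₁^κ M₁^(1-κ) ≤ M₁^κ M₃^(1-κ)` (`0 < κ ≤ 1`). If
`1 ≤ ‖ζ‖ ≤ 2ρ`: let `L = log (200ρ) > 0`, `ζ = e^{s₀}` with `Re s₀ = log ‖ζ‖ ∈ [0, log (2ρ)]`. The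
function `g(s) = F(e^{s})` is bounded and analytic on the strip `0 ≤ Re s ≤ L`, bounded by `M₁` for
`Re s = 0` and by `M₃` for `Re s = L`. Hadamard's three lines theorem
(`Complex.HadamardThreeLines.norm_le_interp_of_mem_verticalClosedStrip₀₁'` and the versions for
general strips `l < u`) gives `‖g(s₀)‖ ≤ M₁^(1-a) M₃^a`, `a = Re s₀/L ≤ log(2ρ)/log(200ρ) = 1 - κ`,
and `M₁^(1-a) M₃^a ≤ M₁^κ M₃^(1-κ)` because `M₁ ≤ M₃`.
-/

set_option autoImplicit false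

namespace Pool.Agent.Work.MP_0d53be_an.Full

private theorem interp_le {M₁ M₃ a k : ℝ} (h1 : 0 < M₁) (h13 : M₁ ≤ M₃) (ha : a ≤ 1 - k) :
    M₁ ^ (1 - a) * M₃ ^ a ≤ M₁ ^ k * M₃ ^ (1 - k) := by
  have h3 : 0 < M₃ := h1.trans_le h13
  have e1 : M₁ ^ (1 - a) = M₁ ^ k * M₁ ^ (1 - a - k) := by
    rw [← Real.rpow_add h1]
    congr 1
    ring
  have e2 : M₃ ^ (1 - k) = M₃ ^ (1 - a - k) * M₃ ^ a := by
    rw [← Real.rpow_add h3]
    congr 1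
    ring
  have e3 : M₁ ^ (1 - a - k) ≤ M₃ ^ (1 - a - k) := Real.rpow_le_rpow h1.le h13 (by linarith)
  rw [e1, e2, mul_assoc]
  have p1 : 0 ≤ M₃ ^ a := (Real.rpow_pos_of_pos h3 a).le
  have p2 : 0 ≤ M₁ ^ k := (Real.rpow_pos_of_pos h1 k).le
  exact mul_le_mul_of_nonneg_left (mul_le_mul_of_nonneg_right e3 p1) p2

theorem three_circles {E : Type*} [NormedAddCommGroup E] [NormedSpace ℂ E] {F : ℂ → E}
    (hF : Differentiable ℂ F) {ρ M₁ M₃ : ℝ} (hρ : 1 ≤ ρ) (h1 : 0 < M₁) (h13 : M₁ ≤ M₃)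
    (b1 : ∀ ζ : ℂ, ‖ζ‖ ≤ 1 → ‖F ζ‖ ≤ M₁) (b3 : ∀ ζ : ℂ, ‖ζ‖ ≤ 200 * ρ → ‖F ζ‖ ≤ M₃) :
    ∀ ζ : ℂ, ‖ζ‖ ≤ 2 * ρ → ‖F ζ‖ ≤ M₁ ^ (Real.log 100 / Real.log (200 * ρ)) *
      M₃ ^ (1 - Real.log 100 / Real.log (200 * ρ)) := by
  intro ζ hζ
  set L : ℝ := Real.log (200 * ρ) with hL
  have h200 : 0 < 200 * ρ := by linarith
  have hLe : L = Real.log 100 + Real.log (2 * ρ) := by
    rw [hL, ← Real.log_mul (by norm_num) (by positivity)]
    congr 1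
    ring
  have hl2 : 0 ≤ Real.log (2 * ρ) := Real.log_nonneg (by linarith)
  have hl100 : 0 < Real.log 100 := Real.log_pos (by norm_num)
  have hL0 : 0 < L := by linarith
  have hk : 1 - Real.log 100 / L = Real.log (2 * ρ) / L := by
    rw [eq_div_iff hL0.ne', sub_mul, div_mul_cancel₀ _ hL0.ne', one_mul]
    linarith
  rcases le_or_gt ‖ζ‖ 1 with hs | hb
  · have h2 := interp_le (a := 0) (k := Real.log 100 / L) h1 h13 (by rw [hk]; positivity)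
    rw [sub_zero, Real.rpow_one, Real.rpow_zero, mul_one] at h2
    exact (b1 ζ hs).trans h2
  · have hz0 : ζ ≠ 0 := by
      intro h
      rw [h, norm_zero] at hb
      linarith
    have hexp : Complex.exp (Complex.log ζ) = ζ := Complex.exp_log hz0
    have hre : (Complex.log ζ).re = Real.log ‖ζ‖ := Complex.log_re ζ
    have hr0 : 0 ≤ Real.log ‖ζ‖ := Real.log_nonneg hb.le
    have hr1 : Real.log ‖ζ‖ ≤ Real.log (2 * ρ) := Real.log_le_log (by linarith) hζ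
    have hnorm : ∀ s : ℂ, s.re ≤ L → ‖Complex.exp s‖ ≤ 200 * ρ := by
      intro s hs
      rw [Complex.norm_exp, ← Real.exp_log h200]
      exact Real.exp_le_exp.2 hs
    have key := Complex.HadamardThreeLines.norm_le_interp_of_mem_verticalClosedStrip'
      (f := fun s => F (Complex.exp s)) (z := Complex.log ζ) (a := M₁) (b := M₃) (l := 0) (u := L)
      hL0 ?_ ?_ ?_ ?_ ?_
    · rw [sub_zero, sub_zero, hre, hexp] at key
      refine key.trans (interp_le h1 h13 ?_)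
      rw [hk]
      exact div_le_div_of_nonneg_right hr1 hL0.le
    · show (Complex.log ζ).re ∈ Set.Icc 0 L
      rw [hre]
      exact ⟨hr0, by linarith⟩
    · exact (hF.comp Complex.differentiable_exp).diffContOnCl
    · refine ⟨M₃, ?_⟩
      rintro r ⟨s, hs, rfl⟩
      exact b3 _ (hnorm s hs.2)
    · intro s hs
      refine b1 _ ?_
      have hs' : s.re = 0 := hs
      rw [Complex.norm_exp, hs', Real.exp_zero]
    · intro s hs
      have hs' : s.re = L := hs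
      exact b3 _ (hnorm s hs'.le)

end Pool.Agent.Work.MP_0d53be_an.Full
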