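import Pool.Agent.Work.MP_0d53be_an.Full.P.Mono
import Pool.Agent.Work.MP_0d53be_an.Full.P.Coef

/-!
# P/Mix: the mixing lemma

Let `b` be quasi-nilpotent, `x : Ex` with `x 0 = 0`, `N > 0`, `8 ‖x‖ ≤ N`, `v : B`. Then
`‖exp(ev b x) v‖ ≤ (N/π) ∫_{‖y‖ ≤ 1/2} e^{-N‖y‖²/2} ‖exp((N conj y) b) v‖ dy
 + C e^{-N/16} ‖v‖`, with `C` depending only on `b`.

Proof. For `‖y‖ ≤ 1/2` let `X(y) = ev y x = ∑_j x_j (2y)^(j+1)` (`ev` in the algebra `ℂ`). By
`exp_ev_eq` in `ℂ`: `e^{X(y)} = ∑_n e_n (2y)^n`, `e_n = ecoef x n`, `∑ ‖e_n‖ ≤ e^{‖x‖}`; since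
`x 0 = 0`, `|X(y)| ≤ ∑_{j≥1} ‖x_j‖ |2y|^(j+1) ≤ 4 ‖y‖² ‖x‖ ≤ N ‖y‖²/2`. Put
`I = (N/π) ∫_{‖y‖≤1/2} (e^{X(y)} e^{-N‖y‖²}) • (exp((N conj y) b) v) dy`. Then
`‖I‖ ≤ (N/π) ∫ e^{N‖y‖²/2 - N‖y‖²} ‖exp((N conj y) b) v‖ dy`, the first term of the claim.
Exchange `∑_n` and the integral (uniform absolute convergence on the disc, continuous factor
`exp((N conj y) b) v`): `I = ∑_n e_n 2^n (N/π) (π/N) gam N n • (b^n v) = ∑_n e_n 2^n gam N n • (b^n v)`
(`disc_mono`). By `exp_ev_eq` in `B` (`QNb.pb`):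
`exp(ev b x) v - I = ∑_n e_n 2^n (1 - gam N n) • (b^n v)`, whose norm is at most
`∑_n ‖e_n‖ 2^n 4^(n+1) e^{-3N/16} ‖b^n‖ ‖v‖ ≤ 4 C₈ e^{‖x‖ - 3N/16} ‖v‖ ≤ 4 C₈ e^{-N/16} ‖v‖`
(`gam_ge`, `gam_le_one`, `QNb.eight`: `8^n ‖b^n‖ ≤ C₈`, `‖x‖ ≤ N/8`).
-/

set_option autoImplicit false

namespace Pool.Agent.Work.MP_0d53be_an.Full

open MeasureTheory

private theorem mix_int {E : Type*} [NormedAddCommGroup E] {f : ℂ → E} (hf : Continuous f) :
    IntegrableOn f (Metric.closedBall (0 : ℂ) (1 / 2)) :=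
  hf.continuousOn.integrableOn_compact (isCompact_closedBall _ _)

private theorem mix_normE {x : Ex} (hx0 : x 0 = 0) {N : ℝ} (hN : 8 * ‖x‖ ≤ N) {y : ℂ}
    (hy : ‖y‖ ≤ 1 / 2) : ‖NormedSpace.exp (ev y x)‖ ≤ Real.exp (N * ‖y‖ ^ 2 / 2) := by
  rw [← Complex.exp_eq_exp_ℂ, Complex.norm_exp, Real.exp_le_exp]
  refine (Complex.re_le_norm _).trans ?_
  have h1 : HasSum (fun j : ℕ => 4 * ‖y‖ ^ 2 * ‖x j‖) (4 * ‖y‖ ^ 2 * ‖x‖) := by
    have h2 := (ex_summable x).hasSum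
    rw [← norm_ex] at h2
    exact h2.mul_left _
  have h3 : ‖ev y x‖ ≤ 4 * ‖y‖ ^ 2 * ‖x‖ := by
    refine tsum_of_norm_bounded h1 fun j => ?_
    have h2y : ‖(2 : ℂ) • y‖ = 2 * ‖y‖ := by
      rw [norm_smul, Complex.norm_ofNat]
    rw [norm_smul, norm_pow, h2y]
    rcases Nat.eq_zero_or_pos j with hj | hj
    · subst hj
      rw [hx0, norm_zero, zero_mul, mul_zero]
    · have h4 : (2 * ‖y‖) ^ (j + 1) ≤ (2 * ‖y‖) ^ 2 :=
        pow_le_pow_of_le_one (by positivity) (by linarith) (by omega)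
      calc ‖x j‖ * (2 * ‖y‖) ^ (j + 1) ≤ ‖x j‖ * (2 * ‖y‖) ^ 2 :=
            mul_le_mul_of_nonneg_left h4 (norm_nonneg _)
        _ = 4 * ‖y‖ ^ 2 * ‖x j‖ := by ring
  have h5 : 0 ≤ ‖y‖ ^ 2 := by positivity
  nlinarith

variable {B : Type*} [NormedCommRing B] [NormedAlgebra ℂ B] [CompleteSpace B]

theorem mixing {b : B} (h : QNb b) : ∃ C : ℝ, 1 ≤ C ∧ ∀ (N : ℝ), 0 < N → ∀ x : Ex, x 0 = 0 →
    8 * ‖x‖ ≤ N → ∀ v : B, ‖NormedSpace.exp (ev b x) * v‖ ≤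
      N / Real.pi * (∫ y in Metric.closedBall (0 : ℂ) (1 / 2), Real.exp (-N * ‖y‖ ^ 2 / 2) *
        ‖NormedSpace.exp ((N * (starRingEnd ℂ) y : ℂ) • b) * v‖) +
      C * Real.exp (-N / 16) * ‖v‖ := by
  obtain ⟨C8, h81, h8⟩ := h.eight
  obtain ⟨C2, hC2⟩ := h.pb
  refine ⟨4 * C8, by linarith, ?_⟩
  intro N hN x hx0 hxN v
  let _ : NormedAlgebra ℚ B := NormedAlgebra.restrictScalars ℚ ℂ B
  obtain ⟨hg, hgs⟩ := ecoef_summable x
  -- the function `w`
  obtain ⟨w, hwd⟩ : ∃ w : ℂ → B, ∀ y, w y =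
      NormedSpace.exp ((N * (starRingEnd ℂ) y : ℂ) • b) * v := ⟨_, fun _ => rfl⟩
  have hw : Continuous w := by
    have h0 : w = fun y => NormedSpace.exp ((N * (starRingEnd ℂ) y : ℂ) • b) * v := funext hwd
    rw [h0]
    have h1 : Continuous (fun y : ℂ => ((N * (starRingEnd ℂ) y : ℂ) • b)) :=
      (continuous_const.mul Complex.continuous_conj).smul continuous_const
    exact (NormedSpace.exp_continuous.comp h1).mul continuous_const
  have hmem : ∀ y ∈ Metric.closedBall (0 : ℂ) (1 / 2), ‖y‖ ≤ 1 / 2 := by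
    intro y hy
    rwa [mem_closedBall_zero_iff] at hy
  -- the series of integrals
  obtain ⟨F, hF⟩ : ∃ F : ℕ → ℂ → B, ∀ n y, F n y = (ecoef x n * 2 ^ n) •
      ((y ^ n * (Real.exp (-N * ‖y‖ ^ 2) : ℂ)) • w y) := ⟨_, fun _ _ => rfl⟩
  have hFc : ∀ n, Continuous (F n) := by
    intro n
    have h0 : F n = fun y => (ecoef x n * 2 ^ n) •
      ((y ^ n * (Real.exp (-N * ‖y‖ ^ 2) : ℂ)) • w y) := funext (hF n)
    rw [h0]
    refine continuous_const.smul (Continuous.smul ?_ hw)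
    refine (continuous_pow n).mul (Complex.continuous_ofReal.comp ?_)
    fun_prop
  have hFb : ∀ n, ∀ y ∈ Metric.closedBall (0 : ℂ) (1 / 2), ‖F n y‖ ≤ ‖ecoef x n‖ * ‖w y‖ := by
    intro n y hy
    have hy' := hmem y hy
    have h1 : Real.exp (-N * ‖y‖ ^ 2) ≤ 1 := by
      rw [Real.exp_le_one_iff]
      have : 0 ≤ N * ‖y‖ ^ 2 := by positivity
      linarith
    have h2 : (2 * ‖y‖) ^ n ≤ 1 := pow_le_one₀ (by positivity) (by linarith)
    rw [hF, norm_smul, norm_smul, norm_mul, norm_mul, norm_pow, norm_pow, Complex.norm_ofNat,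
      Complex.norm_real, Real.norm_eq_abs, abs_of_pos (Real.exp_pos _)]
    calc ‖ecoef x n‖ * 2 ^ n * (‖y‖ ^ n * Real.exp (-N * ‖y‖ ^ 2) * ‖w y‖)
        = ‖ecoef x n‖ * ‖w y‖ * ((2 * ‖y‖) ^ n * Real.exp (-N * ‖y‖ ^ 2)) := by
          rw [mul_pow]
          ring
      _ ≤ ‖ecoef x n‖ * ‖w y‖ * (1 * 1) := by
          refine mul_le_mul_of_nonneg_left ?_ (by positivity)
          exact mul_le_mul h2 h1 (Real.exp_pos _).le zero_le_one
      _ = ‖ecoef x n‖ * ‖w y‖ := by ring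
  have hFs : Summable fun n => ∫ y in Metric.closedBall (0 : ℂ) (1 / 2), ‖F n y‖ := by
    refine Summable.of_nonneg_of_le (fun n => integral_nonneg fun y => norm_nonneg _)
      (fun n => ?_) (hg.mul_right (∫ y in Metric.closedBall (0 : ℂ) (1 / 2), ‖w y‖))
    rw [← integral_const_mul]
    exact setIntegral_mono_on (mix_int (hFc n).norm) (mix_int (continuous_const.mul hw.norm))
      Metric.isClosed_closedBall.measurableSet (hFb n)
  have hsum := hasSum_integral_of_summable_integral_norm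
    (μ := volume.restrict (Metric.closedBall (0 : ℂ) (1 / 2))) (fun n => mix_int (hFc n)) hFs
  have hts : ∫ y in Metric.closedBall (0 : ℂ) (1 / 2), ∑' n, F n y =
      ∫ y in Metric.closedBall (0 : ℂ) (1 / 2),
        (NormedSpace.exp (ev y x) * (Real.exp (-N * ‖y‖ ^ 2) : ℂ)) • w y := by
    refine setIntegral_congr_fun Metric.isClosed_closedBall.measurableSet fun y hy => ?_
    have hy' := hmem y hy
    have h1 : ∀ n : ℕ, ‖((2 : ℂ) • y) ^ n‖ ≤ 1 := by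
      intro n
      rw [norm_pow, norm_smul, Complex.norm_ofNat]
      exact pow_le_one₀ (by positivity) (by linarith)
    have h2 := ((exp_ev_eq h1 x).mul_right (Real.exp (-N * ‖y‖ ^ 2) : ℂ)).smul_const (w y)
    have h3 : ∀ n, F n y = (ecoef x n • ((2 : ℂ) • y) ^ n *
        (Real.exp (-N * ‖y‖ ^ 2) : ℂ)) • w y := by
      intro n
      rw [hF, smul_smul, smul_eq_mul, smul_eq_mul, mul_pow]
      congr 1
      ring
    have h4 : HasSum (fun n => F n y)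
        ((NormedSpace.exp (ev y x) * (Real.exp (-N * ‖y‖ ^ 2) : ℂ)) • w y) := by
      simp only [h3]
      exact h2
    exact h4.tsum_eq
  rw [hts] at hsum
  obtain ⟨I, hI⟩ : ∃ I : B, I = ∫ y in Metric.closedBall (0 : ℂ) (1 / 2),
        (NormedSpace.exp (ev y x) * (Real.exp (-N * ‖y‖ ^ 2) : ℂ)) • w y := ⟨_, rfl⟩
  rw [← hI] at hsum
  have hterm : ∀ n, ∫ y in Metric.closedBall (0 : ℂ) (1 / 2), F n y =
      (ecoef x n * 2 ^ n) • (((Real.pi / N * gam N n : ℝ) : ℂ) • (b ^ n * v)) := by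
    intro n
    rw [← disc_mono b v hN n, ← integral_smul]
    refine integral_congr_ae (Filter.Eventually.of_forall fun y => ?_)
    beta_reduce
    rw [hF, hwd]
  simp only [hterm] at hsum
  -- the bound for the integral
  have hI1 : ‖I‖ ≤ ∫ y in Metric.closedBall (0 : ℂ) (1 / 2), Real.exp (-N * ‖y‖ ^ 2 / 2) *
      ‖w y‖ := by
    rw [hI]
    refine norm_integral_le_of_norm_le (mix_int ?_) ?_
    · refine Continuous.mul ?_ hw.norm
      fun_prop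
    · refine (ae_restrict_iff' Metric.isClosed_closedBall.measurableSet).2
        (Filter.Eventually.of_forall fun y hy => ?_)
      have h1 := mix_normE hx0 hxN (hmem y hy)
      rw [norm_smul, norm_mul, Complex.norm_real, Real.norm_eq_abs, abs_of_pos (Real.exp_pos _)]
      refine mul_le_mul_of_nonneg_right ?_ (norm_nonneg _)
      calc ‖NormedSpace.exp (ev y x)‖ * Real.exp (-N * ‖y‖ ^ 2)
          ≤ Real.exp (N * ‖y‖ ^ 2 / 2) * Real.exp (-N * ‖y‖ ^ 2) :=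
            mul_le_mul_of_nonneg_right h1 (Real.exp_pos _).le
        _ = Real.exp (-N * ‖y‖ ^ 2 / 2) := by
            rw [← Real.exp_add]
            congr 1
            ring
  -- the difference
  have hEb := (exp_ev_eq hC2 x).mul_right v
  have hdiff := hEb.sub (hsum.const_smul ((N / Real.pi : ℝ) : ℂ))
  have hpi := Real.pi_pos
  have hdn : ‖NormedSpace.exp (ev b x) * v - ((N / Real.pi : ℝ) : ℂ) • I‖ ≤
      (4 * C8 * Real.exp (-(3 * N / 16)) * ‖v‖) * ∑' n, ‖ecoef x n‖ := by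
    refine hdiff.norm_le_of_bounded (hg.hasSum.mul_left _) fun n => ?_
    have e1 : ecoef x n • ((2 : ℂ) • b) ^ n * v - ((N / Real.pi : ℝ) : ℂ) •
        ((ecoef x n * 2 ^ n) • (((Real.pi / N * gam N n : ℝ) : ℂ) • (b ^ n * v))) =
        (ecoef x n * 2 ^ n * ((1 - gam N n : ℝ) : ℂ)) • (b ^ n * v) := by
      rw [smul_pow, smul_mul_assoc, smul_mul_assoc, smul_smul, smul_smul, smul_smul, ← sub_smul]
      congr 1
      have h1 : ((N / Real.pi : ℝ) : ℂ) * ((Real.pi / N * gam N n : ℝ) : ℂ) = (gam N n : ℂ) := by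
        rw [← Complex.ofReal_mul]
        congr 1
        field_simp
      push_cast
      push_cast at h1
      linear_combination (-(ecoef x n * 2 ^ n)) * h1
    rw [e1, norm_smul, norm_mul, norm_mul, norm_pow, Complex.norm_ofNat, Complex.norm_real,
      Real.norm_eq_abs, abs_of_nonneg (by linarith [gam_le_one hN n])]
    have h1 : ‖b ^ n * v‖ ≤ ‖b ^ n‖ * ‖v‖ := norm_mul_le _ _
    have h2 := gam_ge hN n
    have h3 : 0 ≤ 1 - gam N n := by linarith [gam_le_one hN n]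
    calc ‖ecoef x n‖ * 2 ^ n * (1 - gam N n) * ‖b ^ n * v‖
        ≤ ‖ecoef x n‖ * 2 ^ n * (4 ^ (n + 1) * Real.exp (-(3 * N / 16))) *
          (‖b ^ n‖ * ‖v‖) := by
          refine mul_le_mul (mul_le_mul_of_nonneg_left h2 (by positivity)) h1 (norm_nonneg _)
            (by positivity)
      _ = (4 * Real.exp (-(3 * N / 16)) * ‖v‖ * ‖ecoef x n‖) * (8 ^ n * ‖b ^ n‖) := by
          have e2 : (8 : ℝ) ^ n = 2 ^ n * 4 ^ n := by
            rw [← mul_pow]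
            norm_num
          rw [e2, pow_succ]
          ring
      _ ≤ (4 * Real.exp (-(3 * N / 16)) * ‖v‖ * ‖ecoef x n‖) * C8 :=
          mul_le_mul_of_nonneg_left (h8 n) (by positivity)
      _ = 4 * C8 * Real.exp (-(3 * N / 16)) * ‖v‖ * ‖ecoef x n‖ := by ring
  have hfin : (4 * C8 * Real.exp (-(3 * N / 16)) * ‖v‖) * ∑' n, ‖ecoef x n‖ ≤
      4 * C8 * Real.exp (-N / 16) * ‖v‖ := by
    have h1 : Real.exp (-(3 * N / 16)) * Real.exp ‖x‖ ≤ Real.exp (-N / 16) := by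
      rw [← Real.exp_add, Real.exp_le_exp]
      linarith
    calc (4 * C8 * Real.exp (-(3 * N / 16)) * ‖v‖) * ∑' n, ‖ecoef x n‖
        ≤ (4 * C8 * Real.exp (-(3 * N / 16)) * ‖v‖) * Real.exp ‖x‖ :=
          mul_le_mul_of_nonneg_left hgs (by positivity)
      _ = 4 * C8 * ‖v‖ * (Real.exp (-(3 * N / 16)) * Real.exp ‖x‖) := by ring
      _ ≤ 4 * C8 * ‖v‖ * Real.exp (-N / 16) := mul_le_mul_of_nonneg_left h1 (by positivity)
      _ = 4 * C8 * Real.exp (-N / 16) * ‖v‖ := by ring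
  have hNI : ‖((N / Real.pi : ℝ) : ℂ) • I‖ ≤ N / Real.pi *
      ∫ y in Metric.closedBall (0 : ℂ) (1 / 2), Real.exp (-N * ‖y‖ ^ 2 / 2) * ‖w y‖ := by
    rw [norm_smul, Complex.norm_real, Real.norm_eq_abs, abs_of_pos (by positivity)]
    exact mul_le_mul_of_nonneg_left hI1 (by positivity)
  simp only [← hwd]
  calc ‖NormedSpace.exp (ev b x) * v‖
      = ‖((N / Real.pi : ℝ) : ℂ) • I +
        (NormedSpace.exp (ev b x) * v - ((N / Real.pi : ℝ) : ℂ) • I)‖ := by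
        rw [add_sub_cancel]
    _ ≤ ‖((N / Real.pi : ℝ) : ℂ) • I‖ +
        ‖NormedSpace.exp (ev b x) * v - ((N / Real.pi : ℝ) : ℂ) • I‖ := norm_add_le _ _
    _ ≤ _ := add_le_add hNI (hdn.trans hfin)

end Pool.Agent.Work.MP_0d53be_an.Full
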