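import Mathlib

/-!
# P/Moment: truncated Gaussian moments on the disc

For `N > 0` and `n : ℕ` put
`gam N n = (N^(n+1)/(π n!)) ∫_{‖y‖ ≤ 1/2} ‖y‖^(2n) e^{-N‖y‖²} dy`.
* `gauss_moment`: `∫_ℂ ‖y‖^(2n) e^{-c‖y‖²} dy = π n!/c^(n+1)` for `c > 0`
  (`Complex.integral_rpow_mul_exp_neg_mul_rpow` with `p = 2`, `q = 2n`:
  `(2π/2) c^{-(2n+2)/2} Γ((2n+2)/2) = π c^{-(n+1)} n!`).
* `gam_le`: `0 ≤ gam ≤ 1` (restrict the domain).
* `gam_ge`: `1 - gam N n ≤ 4^(n+1) e^{-3N/16}`: the missing part is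
  `(N^(n+1)/(π n!)) ∫_{‖y‖ > 1/2} ‖y‖^(2n) e^{-N‖y‖²}`, and there
  `e^{-N‖y‖²} ≤ e^{-3N/16} e^{-N‖y‖²/4}`; so it is at most
  `e^{-3N/16} (N^(n+1)/(π n!)) π n!/(N/4)^(n+1) = 4^(n+1) e^{-3N/16}`.
* `rot_zero`: for `n ≠ m`: `∫_{‖y‖ ≤ 1/2} y^n (conj y)^m e^{-N‖y‖²} dy = 0`: the substitution
  `y ↦ e^{iα} y` (a linear isometry of `ℂ`, measure preserving, preserving the disc) multiplies the
  integral by `e^{i(n-m)α}`; choose `α` with `e^{i(n-m)α} ≠ 1` (`α = π/(n-m)`).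
* `rot_diag`: for `n = m`: `y^n (conj y)^n = ‖y‖^(2n)`, so the integral is `π n! gam N n/N^(n+1)`.
-/

set_option autoImplicit false

namespace Pool.Agent.Work.MP_0d53be_an.Full

open MeasureTheory

/-- Truncated moments. -/
noncomputable def gam (N : ℝ) (n : ℕ) : ℝ :=
  N ^ (n + 1) / (Real.pi * n.factorial) *
    ∫ y in Metric.closedBall (0 : ℂ) (1 / 2), ‖y‖ ^ (2 * n) * Real.exp (-N * ‖y‖ ^ 2)

private theorem gm_eq {c : ℝ} (hc : 0 < c) (n : ℕ) :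
    ∫ y : ℂ, ‖y‖ ^ (2 * n) * Real.exp (-c * ‖y‖ ^ 2) = Real.pi * n.factorial / c ^ (n + 1) := by
  have h := Complex.integral_rpow_mul_exp_neg_mul_rpow (p := 2) (q := 2 * (n : ℝ)) (b := c)
    (by norm_num) (by have : (0 : ℝ) ≤ n := Nat.cast_nonneg n; linarith) hc
  have e1 : ∀ y : ℂ, ‖y‖ ^ (2 * n) * Real.exp (-c * ‖y‖ ^ 2) =
      ‖y‖ ^ (2 * (n : ℝ)) * Real.exp (-c * ‖y‖ ^ (2 : ℝ)) := by
    intro y
    have h1 : ‖y‖ ^ (2 * (n : ℝ)) = ‖y‖ ^ (2 * n) := by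
      rw [← Real.rpow_natCast]
      push_cast
      rfl
    have h2 : ‖y‖ ^ (2 : ℝ) = ‖y‖ ^ 2 := by
      rw [← Real.rpow_natCast]
      push_cast
      rfl
    rw [h1, h2]
  rw [integral_congr_ae (Filter.Eventually.of_forall e1), h]
  have e2 : -(2 * (n : ℝ) + 2) / 2 = -((n + 1 : ℕ) : ℝ) := by push_cast; ring
  have e3 : (2 * (n : ℝ) + 2) / 2 = (n : ℝ) + 1 := by ring
  rw [e2, e3, Real.rpow_neg hc.le, Real.rpow_natCast, Real.Gamma_nat_eq_factorial]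
  field_simp

private theorem gm_int {c : ℝ} (hc : 0 < c) (n : ℕ) :
    Integrable (fun y : ℂ => ‖y‖ ^ (2 * n) * Real.exp (-c * ‖y‖ ^ 2)) := by
  by_contra h
  have h1 := integral_undef h
  rw [gm_eq hc n] at h1
  have : 0 < Real.pi * n.factorial / c ^ (n + 1) := by
    have := Real.pi_pos
    have := Nat.factorial_pos n
    positivity
  linarith

theorem gauss_moment {c : ℝ} (hc : 0 < c) (n : ℕ) :
    ∫ y : ℂ, ‖y‖ ^ (2 * n) * Real.exp (-c * ‖y‖ ^ 2) = Real.pi * n.factorial / c ^ (n + 1) :=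
  gm_eq hc n

theorem gam_nonneg {N : ℝ} (hN : 0 < N) (n : ℕ) : 0 ≤ gam N n := by
  unfold gam
  have h1 : 0 ≤ ∫ y in Metric.closedBall (0 : ℂ) (1 / 2), ‖y‖ ^ (2 * n) * Real.exp (-N * ‖y‖ ^ 2) :=
    integral_nonneg (fun y => by positivity)
  have := Real.pi_pos
  positivity

theorem gam_le_one {N : ℝ} (hN : 0 < N) (n : ℕ) : gam N n ≤ 1 := by
  unfold gam
  have h1 : ∫ y in Metric.closedBall (0 : ℂ) (1 / 2), ‖y‖ ^ (2 * n) * Real.exp (-N * ‖y‖ ^ 2) ≤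
      ∫ y : ℂ, ‖y‖ ^ (2 * n) * Real.exp (-N * ‖y‖ ^ 2) :=
    setIntegral_le_integral (gm_int hN n) (Filter.Eventually.of_forall fun y => by positivity)
  rw [gm_eq hN n] at h1
  have hπ := Real.pi_pos
  have hf : (0 : ℝ) < n.factorial := by exact_mod_cast Nat.factorial_pos n
  calc N ^ (n + 1) / (Real.pi * n.factorial) *
        ∫ y in Metric.closedBall (0 : ℂ) (1 / 2), ‖y‖ ^ (2 * n) * Real.exp (-N * ‖y‖ ^ 2)
      ≤ N ^ (n + 1) / (Real.pi * n.factorial) * (Real.pi * n.factorial / N ^ (n + 1)) :=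
        mul_le_mul_of_nonneg_left h1 (by positivity)
    _ = 1 := by field_simp

theorem gam_ge {N : ℝ} (hN : 0 < N) (n : ℕ) :
    1 - gam N n ≤ 4 ^ (n + 1) * Real.exp (-(3 * N / 16)) := by
  have hπ := Real.pi_pos
  have hf : (0 : ℝ) < n.factorial := by exact_mod_cast Nat.factorial_pos n
  have hm : MeasurableSet (Metric.closedBall (0 : ℂ) (1 / 2)) := Metric.isClosed_closedBall.measurableSet
  have h1 := integral_add_compl hm (gm_int hN n)
  rw [gm_eq hN n] at h1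
  have hN4 : 0 < N / 4 := by positivity
  have h2 : ∫ y in (Metric.closedBall (0 : ℂ) (1 / 2))ᶜ, ‖y‖ ^ (2 * n) * Real.exp (-N * ‖y‖ ^ 2) ≤
      ∫ y in (Metric.closedBall (0 : ℂ) (1 / 2))ᶜ, Real.exp (-(3 * N / 16)) *
        (‖y‖ ^ (2 * n) * Real.exp (-(N / 4) * ‖y‖ ^ 2)) := by
    refine setIntegral_mono_on (gm_int hN n).integrableOn
      ((gm_int hN4 n).const_mul _).integrableOn hm.compl ?_
    intro y hy
    have hy' : 1 / 2 < ‖y‖ := by
      rw [Set.mem_compl_iff, Metric.mem_closedBall, dist_zero_right, not_le] at hy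
      exact hy
    have e : Real.exp (-N * ‖y‖ ^ 2) ≤ Real.exp (-(3 * N / 16)) * Real.exp (-(N / 4) * ‖y‖ ^ 2) := by
      rw [← Real.exp_add]
      apply Real.exp_le_exp.2
      have : (1 / 4 : ℝ) ≤ ‖y‖ ^ 2 := by nlinarith
      nlinarith
    calc ‖y‖ ^ (2 * n) * Real.exp (-N * ‖y‖ ^ 2)
        ≤ ‖y‖ ^ (2 * n) * (Real.exp (-(3 * N / 16)) * Real.exp (-(N / 4) * ‖y‖ ^ 2)) :=
          mul_le_mul_of_nonneg_left e (by positivity)
      _ = _ := by ring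
  have h3 : ∫ y in (Metric.closedBall (0 : ℂ) (1 / 2))ᶜ, Real.exp (-(3 * N / 16)) *
        (‖y‖ ^ (2 * n) * Real.exp (-(N / 4) * ‖y‖ ^ 2)) ≤
      Real.exp (-(3 * N / 16)) * (Real.pi * n.factorial / (N / 4) ^ (n + 1)) := by
    rw [← gm_eq hN4 n, ← integral_const_mul]
    exact setIntegral_le_integral ((gm_int hN4 n).const_mul _)
      (Filter.Eventually.of_forall fun y => by positivity)
  have h4 : 1 - gam N n = N ^ (n + 1) / (Real.pi * n.factorial) *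
      ∫ y in (Metric.closedBall (0 : ℂ) (1 / 2))ᶜ, ‖y‖ ^ (2 * n) * Real.exp (-N * ‖y‖ ^ 2) := by
    have e : (1 : ℝ) = N ^ (n + 1) / (Real.pi * n.factorial) *
        (Real.pi * n.factorial / N ^ (n + 1)) := by field_simp
    rw [← h1, mul_add] at e
    have e5 : gam N n = N ^ (n + 1) / (Real.pi * n.factorial) *
      ∫ y in Metric.closedBall (0 : ℂ) (1 / 2), ‖y‖ ^ (2 * n) * Real.exp (-N * ‖y‖ ^ 2) := rfl
    linarith
  rw [h4]
  calc N ^ (n + 1) / (Real.pi * n.factorial) *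
      ∫ y in (Metric.closedBall (0 : ℂ) (1 / 2))ᶜ, ‖y‖ ^ (2 * n) * Real.exp (-N * ‖y‖ ^ 2)
      ≤ N ^ (n + 1) / (Real.pi * n.factorial) *
        (Real.exp (-(3 * N / 16)) * (Real.pi * n.factorial / (N / 4) ^ (n + 1))) :=
        mul_le_mul_of_nonneg_left (h2.trans h3) (by positivity)
    _ = 4 ^ (n + 1) * Real.exp (-(3 * N / 16)) := by
        rw [div_pow]
        field_simp

private theorem rot_aux (a : Circle) (f : ℂ → ℂ) :
    ∫ y in Metric.closedBall (0 : ℂ) (1 / 2), f (a * y) =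
      ∫ y in Metric.closedBall (0 : ℂ) (1 / 2), f y := by
  have h := (rotation a).measurePreserving
  have h1 := h.setIntegral_preimage_emb (rotation a).toHomeomorph.measurableEmbedding f
    (Metric.closedBall (0 : ℂ) (1 / 2))
  rw [LinearIsometryEquiv.preimage_closedBall, map_zero] at h1
  exact h1

theorem rot_zero {N : ℝ} {n m : ℕ} (h : n ≠ m) :
    ∫ y in Metric.closedBall (0 : ℂ) (1 / 2),
      y ^ n * (starRingEnd ℂ) y ^ m * (Real.exp (-N * ‖y‖ ^ 2) : ℂ) = 0 := by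
  set f : ℂ → ℂ := fun y => y ^ n * (starRingEnd ℂ) y ^ m * (Real.exp (-N * ‖y‖ ^ 2) : ℂ) with hf
  have key : ∀ a : Circle, (a : ℂ) ^ n * (starRingEnd ℂ) (a : ℂ) ^ m *
      (∫ y in Metric.closedBall (0 : ℂ) (1 / 2), f y) =
      ∫ y in Metric.closedBall (0 : ℂ) (1 / 2), f y := by
    intro a
    rw [← integral_const_mul, ← rot_aux a f]
    congr 1
    funext y
    have hn : ‖(a : ℂ) * y‖ = ‖y‖ := by rw [norm_mul, Circle.norm_coe, one_mul]
    simp only [hf]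
    rw [hn, map_mul, mul_pow, mul_pow]
    ring
  have hα : ∃ a : Circle, (a : ℂ) ^ n * (starRingEnd ℂ) (a : ℂ) ^ m ≠ 1 := by
    set δ : ℝ := (n : ℝ) - m with hδ
    have hδ0 : δ ≠ 0 := by
      rw [hδ, sub_ne_zero]
      exact_mod_cast h
    refine ⟨Circle.exp (Real.pi / δ), ?_⟩
    rw [Circle.coe_exp, ← Complex.exp_conj, ← Complex.exp_nat_mul, ← Complex.exp_nat_mul,
      ← Complex.exp_add]
    have e : (n : ℂ) * (((Real.pi / δ : ℝ) : ℂ) * Complex.I) +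
        (m : ℂ) * (starRingEnd ℂ) (((Real.pi / δ : ℝ) : ℂ) * Complex.I) = Real.pi * Complex.I := by
      rw [map_mul, Complex.conj_ofReal, Complex.conj_I]
      have h1 : (δ : ℂ) = (n : ℂ) - m := by rw [hδ]; push_cast; ring
      have h2 : (n : ℂ) - m ≠ 0 := by
        rw [← h1]; exact_mod_cast hδ0
      push_cast
      rw [h1]
      field_simp
      ring
    rw [e, Complex.exp_pi_mul_I]
    norm_num
  obtain ⟨a, ha⟩ := hα
  have h1 := key a
  have h2 : ((a : ℂ) ^ n * (starRingEnd ℂ) (a : ℂ) ^ m - 1) *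
      (∫ y in Metric.closedBall (0 : ℂ) (1 / 2), f y) = 0 := by
    rw [sub_mul, h1, one_mul, sub_self]
  rcases mul_eq_zero.1 h2 with h3 | h3
  · exact absurd (sub_eq_zero.1 h3) ha
  · exact h3

theorem rot_diag {N : ℝ} (hN : 0 < N) (n : ℕ) :
    ∫ y in Metric.closedBall (0 : ℂ) (1 / 2),
      y ^ n * (starRingEnd ℂ) y ^ n * (Real.exp (-N * ‖y‖ ^ 2) : ℂ) =
      ((Real.pi * n.factorial / N ^ (n + 1) * gam N n : ℝ) : ℂ) := by
  have e1 : ∀ y : ℂ, y ^ n * (starRingEnd ℂ) y ^ n * (Real.exp (-N * ‖y‖ ^ 2) : ℂ) =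
      ((‖y‖ ^ (2 * n) * Real.exp (-N * ‖y‖ ^ 2) : ℝ) : ℂ) := by
    intro y
    rw [← mul_pow, Complex.mul_conj, Complex.normSq_eq_norm_sq, pow_mul]
    push_cast
    rfl
  rw [integral_congr_ae (Filter.Eventually.of_forall e1), integral_complex_ofReal]
  congr 1
  unfold gam
  have hπ := Real.pi_pos
  have hf : (0 : ℝ) < n.factorial := by exact_mod_cast Nat.factorial_pos n
  field_simp

end Pool.Agent.Work.MP_0d53be_an.Full
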