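import Pool.Agent.Work.MP_0d53be_an.Full.P.Moment
import Pool.Agent.Work.MP_0d53be_an.Full.X.Ev

/-!
# P/Mono: the disc transform of a monomial

For `b` in a commutative Banach algebra, `v : B`, `N > 0`, `n : ℕ`:
`∫_{‖y‖ ≤ 1/2} (y^n e^{-N‖y‖²}) • (exp((N conj y) • b) v) dy = (π/N) gam N n • (b^n v)`.

Proof. `exp((N conj y) • b) = ∑_m (N^m (conj y)^m/m!) • b^m`, uniformly absolutely convergent for
`‖y‖ ≤ 1/2` (norms at most `(N/2)^m ‖b^m‖/m! ≤ (N ‖b‖)^m / m!·const`). Exchange the sum and the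
integral over the disc (`hasSum_integral_of_summable_norm` or
`integral_tsum`); the `m`-th term is `(N^m/m!) (∫ y^n (conj y)^m e^{-N‖y‖²}) • (b^m v)`, which
vanishes for `m ≠ n` (`rot_zero`) and equals `(N^n/n!) (π n!/N^(n+1)) gam N n • (b^n v)` for `m = n`
(`rot_diag`).
-/

set_option autoImplicit false

namespace Pool.Agent.Work.MP_0d53be_an.Full

open MeasureTheory

variable {B : Type*} [NormedCommRing B] [NormedAlgebra ℂ B] [CompleteSpace B]

private theorem pow_mul_norm_le {B : Type*} [NormedCommRing B] (x v : B) (m : ℕ) :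
    ‖x ^ m * v‖ ≤ ‖x‖ ^ m * ‖v‖ := by
  induction m with
  | zero => rw [pow_zero, pow_zero, one_mul, one_mul]
  | succ m ih =>
    have h1 : x ^ (m + 1) * v = x * (x ^ m * v) := by ring
    have h2 : ‖x‖ ^ (m + 1) * ‖v‖ = ‖x‖ * (‖x‖ ^ m * ‖v‖) := by ring
    rw [h1, h2]
    exact (norm_mul_le _ _).trans (mul_le_mul_of_nonneg_left ih (norm_nonneg _))

/-- the terms of the exponential series -/
private noncomputable def mF {B : Type*} [NormedCommRing B] [NormedAlgebra ℂ B] (b v : B) (N : ℝ) (n m : ℕ)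
    (y : ℂ) : B :=
  (y ^ n * (starRingEnd ℂ) y ^ m * (Real.exp (-N * ‖y‖ ^ 2) : ℂ)) •
    (((N : ℂ) ^ m * ((m.factorial : ℂ))⁻¹) • (b ^ m * v))

private theorem mF_cont {B : Type*} [NormedCommRing B] [NormedAlgebra ℂ B] (b v : B) (N : ℝ) (n m : ℕ) :
    Continuous (mF b v N n m) := by
  unfold mF
  refine Continuous.smul ?_ continuous_const
  refine Continuous.mul ?_ ?_
  · exact (continuous_id.pow n).mul ((Complex.continuous_conj).pow m)
  · exact Complex.continuous_ofReal.comp (Real.continuous_exp.comp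
      (continuous_const.mul (continuous_norm.pow 2)))

private theorem mF_le {B : Type*} [NormedCommRing B] [NormedAlgebra ℂ B] (b v : B) {N : ℝ} (hN : 0 < N)
    (n m : ℕ) {y : ℂ} (hy : y ∈ Metric.closedBall (0 : ℂ) (1 / 2)) :
    ‖mF b v N n m y‖ ≤ (N * ‖b‖) ^ m / m.factorial * ‖v‖ := by
  unfold mF
  rw [Metric.mem_closedBall, dist_zero_right] at hy
  have hy1 : ‖y‖ ≤ 1 := by linarith
  have h0 : (0 : ℝ) < m.factorial := by exact_mod_cast Nat.factorial_pos m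
  rw [norm_smul, norm_smul, norm_mul, norm_mul, norm_mul, norm_pow, norm_pow, norm_pow, norm_inv,
    RCLike.norm_conj, Complex.norm_natCast, Complex.norm_real, Complex.norm_real,
    Real.norm_of_nonneg (Real.exp_pos _).le, Real.norm_of_nonneg hN.le]
  have h1 : ‖y‖ ^ n * ‖y‖ ^ m * Real.exp (-N * ‖y‖ ^ 2) ≤ 1 := by
    have e1 : ‖y‖ ^ n ≤ 1 := pow_le_one₀ (norm_nonneg _) hy1
    have e2 : ‖y‖ ^ m ≤ 1 := pow_le_one₀ (norm_nonneg _) hy1
    have e3 : Real.exp (-N * ‖y‖ ^ 2) ≤ 1 := by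
      rw [← Real.exp_zero]
      refine Real.exp_le_exp.2 ?_
      have : 0 ≤ N * ‖y‖ ^ 2 := by positivity
      linarith
    have e4 : ‖y‖ ^ n * ‖y‖ ^ m ≤ 1 := mul_le_one₀ e1 (by positivity) e2
    exact mul_le_one₀ e4 (Real.exp_pos _).le e3
  have h2 : N ^ m * (m.factorial : ℝ)⁻¹ * ‖b ^ m * v‖ ≤ (N * ‖b‖) ^ m / m.factorial * ‖v‖ := by
    have h3 := pow_mul_norm_le b v m
    calc N ^ m * (m.factorial : ℝ)⁻¹ * ‖b ^ m * v‖ ≤ N ^ m * (m.factorial : ℝ)⁻¹ * (‖b‖ ^ m * ‖v‖) :=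
          mul_le_mul_of_nonneg_left h3 (by positivity)
      _ = (N * ‖b‖) ^ m / m.factorial * ‖v‖ := by rw [mul_pow]; field_simp
  calc ‖y‖ ^ n * ‖y‖ ^ m * Real.exp (-N * ‖y‖ ^ 2) * (N ^ m * (m.factorial : ℝ)⁻¹ * ‖b ^ m * v‖)
      ≤ 1 * (N ^ m * (m.factorial : ℝ)⁻¹ * ‖b ^ m * v‖) :=
        mul_le_mul_of_nonneg_right h1 (by positivity)
    _ = N ^ m * (m.factorial : ℝ)⁻¹ * ‖b ^ m * v‖ := one_mul _
    _ ≤ _ := h2

private theorem mF_sum {B : Type*} [NormedCommRing B] [NormedAlgebra ℂ B] [CompleteSpace B] (b v : B) (N : ℝ)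
    (n : ℕ) (y : ℂ) :
    HasSum (fun m => mF b v N n m y) ((y ^ n * (Real.exp (-N * ‖y‖ ^ 2) : ℂ)) •
      (NormedSpace.exp ((N * (starRingEnd ℂ) y : ℂ) • b) * v)) := by
  have h1 : HasSum (fun m : ℕ => ((m.factorial : ℂ)⁻¹) • (((N * (starRingEnd ℂ) y : ℂ) • b) ^ m))
      (NormedSpace.exp ((N * (starRingEnd ℂ) y : ℂ) • b)) :=
    NormedSpace.exp_series_hasSum_exp' (𝕂 := ℂ) _
  have h2 := (h1.mul_right v).const_smul (y ^ n * (Real.exp (-N * ‖y‖ ^ 2) : ℂ))
  have h3 : (fun m => mF b v N n m y) = fun m : ℕ => (y ^ n * (Real.exp (-N * ‖y‖ ^ 2) : ℂ)) •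
      ((((m.factorial : ℂ)⁻¹) • (((N * (starRingEnd ℂ) y : ℂ) • b) ^ m)) * v) := by
    funext m
    unfold mF
    rw [smul_pow, smul_smul, smul_mul_assoc, smul_smul, smul_mul_assoc, smul_smul, mul_pow]
    congr 1
    ring
  rw [h3]
  exact h2

theorem disc_mono (b v : B) {N : ℝ} (hN : 0 < N) (n : ℕ) :
    ∫ y in Metric.closedBall (0 : ℂ) (1 / 2), (y ^ n * (Real.exp (-N * ‖y‖ ^ 2) : ℂ)) •
      (NormedSpace.exp ((N * (starRingEnd ℂ) y : ℂ) • b) * v) =
    ((Real.pi / N * gam N n : ℝ) : ℂ) • (b ^ n * v) := by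
  have hcomp : IsCompact (Metric.closedBall (0 : ℂ) (1 / 2)) := isCompact_closedBall _ _
  have hint : ∀ m, Integrable (mF b v N n m) (volume.restrict (Metric.closedBall (0 : ℂ) (1 / 2))) :=
    fun m => (mF_cont b v N n m).continuousOn.integrableOn_compact hcomp
  have hsum : Summable fun m => ∫ y in Metric.closedBall (0 : ℂ) (1 / 2), ‖mF b v N n m y‖ := by
    refine Summable.of_nonneg_of_le (fun m => integral_nonneg fun y => norm_nonneg _) (fun m => ?_)
      (((Real.summable_pow_div_factorial (N * ‖b‖)).mul_right ‖v‖).mul_right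
        (volume.real (Metric.closedBall (0 : ℂ) (1 / 2))))
    have h1 := norm_setIntegral_le_of_norm_le_const (μ := volume)
      (f := fun y => ‖mF b v N n m y‖) (C := (N * ‖b‖) ^ m / m.factorial * ‖v‖)
      hcomp.measure_lt_top (fun y hy => by
        rw [norm_norm]
        exact mF_le b v hN n m hy)
    rwa [Real.norm_of_nonneg (integral_nonneg fun y => norm_nonneg _)] at h1
  have h1 := hasSum_integral_of_summable_integral_norm hint hsum
  have h2 : ∀ y : ℂ, ∑' m, mF b v N n m y = (y ^ n * (Real.exp (-N * ‖y‖ ^ 2) : ℂ)) •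
      (NormedSpace.exp ((N * (starRingEnd ℂ) y : ℂ) • b) * v) := fun y => (mF_sum b v N n y).tsum_eq
  simp only [h2] at h1
  have h3 : ∀ m, ∫ y in Metric.closedBall (0 : ℂ) (1 / 2), mF b v N n m y =
      (∫ y in Metric.closedBall (0 : ℂ) (1 / 2),
        y ^ n * (starRingEnd ℂ) y ^ m * (Real.exp (-N * ‖y‖ ^ 2) : ℂ)) •
      (((N : ℂ) ^ m * ((m.factorial : ℂ))⁻¹) • (b ^ m * v)) := by
    intro m
    unfold mF
    exact integral_smul_const _ _
  have h4 : ∀ m, m ≠ n → ∫ y in Metric.closedBall (0 : ℂ) (1 / 2), mF b v N n m y = 0 := by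
    intro m hm
    rw [h3 m, rot_zero hm.symm, zero_smul]
  have h5 := h1.unique (hasSum_single n h4)
  rw [h5, h3 n, rot_diag hN n, smul_smul]
  congr 1
  have hf : (n.factorial : ℂ) ≠ 0 := by exact_mod_cast Nat.factorial_ne_zero n
  have hN' : (N : ℂ) ≠ 0 := by exact_mod_cast hN.ne'
  push_cast
  rw [pow_succ]
  field_simp

end Pool.Agent.Work.MP_0d53be_an.Full
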