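import Pool.Agent.Work.MP_0d53be_an.Full.P.Step
import Pool.Agent.Work.MP_0d53be_an.Full.P.Had

/-!
# P/PA: near returns are not dense in a disc of radius `ρ log² ρ` at scale `ρ`

Let `b` be quasi-nilpotent, `p : ℕ`, `c > 0`, `C`. There is `ρ₀` such that for `ρ ≥ ρ₀` and
`n ≥ (log (200ρ))²` there are no sets `Q 0, …, Q n ⊆ Ex` with `Q 0` nonempty, with
`‖exp(ev b q) b^p‖ ≤ C` and `c ≤ ‖exp(ev b q) b^(p+1)‖` for `q ∈ Q i`, `i ≤ n`, and such that for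
`i < n`, `q ∈ Q i`, `‖ζ‖ ≤ 200 ρ` there is `q' ∈ Q (i+1)` with `‖2 (q'-q)_0 - ζ‖ ≤ ρ`,
`‖q' - q‖ ≤ 500 ρ`.

Proof. For `q ∈ Q i` put `F_q(ζ) = exp(ev b q) exp(ζ b) b^p`, entire in `ζ`
(`hasDerivAt_exp_smul_const`), `F_q'(0) = exp(ev b q) b^(p+1)`. Let `S_i` be the supremum of
`‖F_q(ζ)‖`, `q ∈ Q i`, `‖ζ‖ ≤ 200ρ`. By `‖exp(ζ b)‖ ≤ C₁ e^{‖ζ‖}` (`QNb` with `r = 1`, as in P/Step)
`S_i ≤ C C₁ e^{200ρ}`. Let `M₁ = max(C e^{‖b‖}, 1)`-like constant: `‖F_q(ζ)‖ ≤ M₁` for `‖ζ‖ ≤ 1`,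
`M₁ ≥ 1` (`‖exp(ζ b)‖ ≤ C₁ e`). Put `S'_i = max(S_i, M₁)`, `κ = log 100/log(200ρ) ∈ (0,1)`.
For `i < n`, `q ∈ Q i`, `‖ζ‖ ≤ 200ρ` take `q'`; `three_circles` for `F_{q'}` gives the bound
`U = M₁^κ S'_{i+1}^(1-κ)` on `‖z‖ ≤ 2ρ`, and `step` gives `‖F_q(ζ)‖ ≤ 3 U`. Hence
`S'_i ≤ 3 M₁^κ S'_{i+1}^(1-κ)` (also when `S'_i = M₁`, since `M₁ ≤ 3 M₁^κ S'^{1-κ}`). With
`g_i = log S'_i - log M₁ ≥ 0`: `g_i ≤ log 3 + (1-κ) g_{i+1}`. So
`g_0 ≤ log 3/κ + (1-κ)^n g_n ≤ log 3 log(200ρ)/log 100 + e^{-κ n} (log (C C₁) + 200ρ)` (bounded by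
`max`), and `κ n ≥ log 100 log (200ρ) ≥ 4 log(200ρ)`, so the last term is
`≤ (200ρ)^{-4} (|log (C C₁)| + 200 ρ) ≤ 1` for large `ρ`. `log 3/log 100 ≤ 1/4`
(`3^4 = 81 ≤ 100`). So `S_0 ≤ M₁ e (200ρ)^(1/4)`. Cauchy's inequality for the derivative
(`Complex.norm_deriv_le_of_forall_mem_sphere_norm_le`) for some `q ∈ Q 0`:
`c ≤ ‖F_q'(0)‖ ≤ S_0/(200ρ) ≤ e M₁ (200ρ)^(-3/4)`: false for large `ρ`.
-/

set_option autoImplicit false

namespace Pool.Agent.Work.MP_0d53be_an.Full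

variable {B : Type*} [NormedCommRing B] [NormedAlgebra ℂ B] [CompleteSpace B]

private theorem pa_exp_bound {b : B} (h : QNb b) : ∃ K : ℝ, 0 ≤ K ∧ ∀ z : ℂ,
    ‖NormedSpace.exp (z • b)‖ ≤ K * Real.exp ‖z‖ := by
  obtain ⟨K, hK⟩ := h 1 one_pos
  have hK0 : 0 ≤ K := le_trans (by positivity) (hK 0)
  refine ⟨K, hK0, fun z => ?_⟩
  rw [NormedSpace.exp_eq_tsum ℂ]
  have hs : HasSum (fun n : ℕ => K * (‖z‖ ^ n / (n.factorial : ℝ))) (K * Real.exp ‖z‖) := by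
    rw [Real.exp_eq_exp_ℝ]
    exact (NormedSpace.expSeries_div_hasSum_exp ‖z‖).mul_left K
  refine tsum_of_norm_bounded hs fun n => ?_
  have h1 : ‖b ^ n‖ ≤ K := by
    have := hK n
    rwa [one_pow, one_mul] at this
  have h2 : (0 : ℝ) < n.factorial := by exact_mod_cast n.factorial_pos
  have h3 : ‖((n.factorial : ℂ))⁻¹‖ = (n.factorial : ℝ)⁻¹ := by
    rw [norm_inv, Complex.norm_natCast]
  rw [smul_pow, norm_smul, norm_smul, norm_pow, h3]
  have h4 : ‖z‖ ^ n * ‖b ^ n‖ ≤ ‖z‖ ^ n * K := mul_le_mul_of_nonneg_left h1 (by positivity)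
  calc (n.factorial : ℝ)⁻¹ * (‖z‖ ^ n * ‖b ^ n‖) ≤ (n.factorial : ℝ)⁻¹ * (‖z‖ ^ n * K) :=
        mul_le_mul_of_nonneg_left h4 (by positivity)
    _ = K * (‖z‖ ^ n / (n.factorial : ℝ)) := by
        field_simp

/-- the function `F_q` -/
private noncomputable def pF (b : B) (p : ℕ) (q : Ex) (ζ : ℂ) : B :=
  NormedSpace.exp (ev b q) * NormedSpace.exp (ζ • b) * b ^ p

private theorem pF_deriv (b : B) (p : ℕ) (q : Ex) (ζ : ℂ) :
    HasDerivAt (pF b p q) (NormedSpace.exp (ev b q) * (NormedSpace.exp (ζ • b) * b) * b ^ p) ζ :=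
  ((hasDerivAt_exp_smul_const b ζ).const_mul _).mul_const _

private theorem pF_diff (b : B) (p : ℕ) (q : Ex) : Differentiable ℂ (pF b p q) :=
  fun ζ => (pF_deriv b p q ζ).differentiableAt

private theorem pa_four : 4 ≤ Real.log 100 := by
  rw [Real.le_log_iff_exp_le (by norm_num)]
  have h1 : Real.exp 4 = Real.exp 1 ^ 4 := by
    rw [← Real.exp_nat_mul]
    norm_num
  rw [h1]
  have h2 : Real.exp 1 ≤ 3 := by
    have := Real.exp_one_lt_d9
    linarith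
  calc Real.exp 1 ^ 4 ≤ 3 ^ 4 := pow_le_pow_left₀ (Real.exp_pos 1).le h2 4
    _ ≤ 100 := by norm_num

private theorem pa_log3 : 4 * Real.log 3 ≤ Real.log 100 := by
  have h1 : 4 * Real.log 3 = Real.log (3 ^ 4) := by
    rw [Real.log_pow]
    norm_num
  rw [h1]
  exact Real.log_le_log (by norm_num) (by norm_num)

private theorem pa_large (M c : ℝ) (hc : 0 < c) : ∃ ρ₀ : ℝ, ∀ ρ : ℝ, ρ₀ ≤ ρ → 1 ≤ ρ ∧
    M * Real.exp (-(3 / 4 * Real.log (200 * ρ))) < c := by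
  have a1 : Filter.Tendsto (fun ρ : ℝ => 3 / 4 * Real.log (200 * ρ)) Filter.atTop Filter.atTop :=
    (Real.tendsto_log_atTop.comp (Filter.tendsto_id.const_mul_atTop (by norm_num))).const_mul_atTop
      (by norm_num)
  have t1 := (Real.tendsto_exp_neg_atTop_nhds_zero.comp a1).const_mul M
  rw [mul_zero] at t1
  have e1 := t1.eventually_lt_const hc
  obtain ⟨ρ₀, hρ⟩ := Filter.eventually_atTop.1 ((Filter.eventually_ge_atTop (1 : ℝ)).and e1)
  exact ⟨ρ₀, fun ρ h => hρ ρ h⟩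

private theorem pa_rec {M k g : ℝ} (hM : 0 < M) :
    3 * (M ^ k * (M * Real.exp g) ^ (1 - k)) = M * Real.exp (Real.log 3 + (1 - k) * g) := by
  rw [Real.mul_rpow hM.le (Real.exp_pos g).le, ← Real.exp_mul, Real.exp_add,
    Real.exp_log (by norm_num), ← mul_assoc (M ^ k), ← Real.rpow_add hM]
  have h1 : k + (1 - k) = 1 := by ring
  rw [h1, Real.rpow_one, mul_comm g]
  ring

theorem no_plane {b : B} (h : QNb b) (p : ℕ) {c C : ℝ} (hc : 0 < c) :
    ∃ ρ₀ : ℝ, ∀ ρ : ℝ, ρ₀ ≤ ρ → ∀ n : ℕ, Real.log (200 * ρ) ^ 2 ≤ n → ∀ Q : ℕ → Set Ex,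
      (Q 0).Nonempty →
      (∀ i ≤ n, ∀ q ∈ Q i, ‖NormedSpace.exp (ev b q) * b ^ p‖ ≤ C ∧
        c ≤ ‖NormedSpace.exp (ev b q) * b ^ (p + 1)‖) →
      (∀ i < n, ∀ q ∈ Q i, ∀ ζ : ℂ, ‖ζ‖ ≤ 200 * ρ → ∃ q' ∈ Q (i + 1),
        ‖2 * (q' - q) 0 - ζ‖ ≤ ρ ∧ ‖q' - q‖ ≤ 500 * ρ) → False := by
  obtain ⟨K, hK0, hK⟩ := pa_exp_bound h
  obtain ⟨ρ₁, hρ₁⟩ := step h p (C := C) hc
  set M : ℝ := max (K * C * Real.exp 1) 1 with hM
  have hM1 : 1 ≤ M := le_max_right _ _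
  have hM0 : 0 < M := by linarith
  obtain ⟨ρ₂, hρ₂⟩ := pa_large (M * Real.exp 1) c hc
  refine ⟨max ρ₁ ρ₂, ?_⟩
  intro ρ hρ n hn Q hQ0 hQ hstep
  obtain ⟨hρ1, hlarge⟩ := hρ₂ ρ ((le_max_right _ _).trans hρ)
  have hst := hρ₁ ρ ((le_max_left _ _).trans hρ)
  set L : ℝ := Real.log (200 * ρ) with hL
  have h200 : 0 < 200 * ρ := by linarith
  have h4 := pa_four
  have hLgt : Real.log 100 < L := Real.log_lt_log (by norm_num) (by linarith)
  have hL0 : 0 < L := by linarith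
  set k : ℝ := Real.log 100 / L with hk
  have hk0 : 0 < k := div_pos (by linarith) hL0
  have hk1 : k < 1 := by
    rw [hk, div_lt_one hL0]
    exact hLgt
  have hC0 : 0 ≤ C := by
    obtain ⟨q, hq⟩ := hQ0
    exact (norm_nonneg _).trans (hQ 0 (Nat.zero_le _) q hq).1
  -- a priori bounds
  have hap : ∀ i ≤ n, ∀ q ∈ Q i, ∀ ζ : ℂ, ‖pF b p q ζ‖ ≤ K * C * Real.exp ‖ζ‖ := by
    intro i hi q hq ζ
    have h1 : pF b p q ζ = NormedSpace.exp (ζ • b) * (NormedSpace.exp (ev b q) * b ^ p) := by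
      unfold pF
      ring
    rw [h1]
    refine (norm_mul_le _ _).trans ?_
    refine (mul_le_mul (hK ζ) (hQ i hi q hq).1 (norm_nonneg _) (by positivity)).trans (le_of_eq ?_)
    ring
  have hKC : 0 ≤ K * C := mul_nonneg hK0 hC0
  have hb1 : ∀ i ≤ n, ∀ q ∈ Q i, ∀ ζ : ℂ, ‖ζ‖ ≤ 1 → ‖pF b p q ζ‖ ≤ M := by
    intro i hi q hq ζ hζ
    refine (hap i hi q hq ζ).trans (le_trans ?_ (le_max_left _ _))
    exact mul_le_mul_of_nonneg_left (Real.exp_le_exp.2 hζ) hKC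
  have hg0 : ∀ j : ℕ, 0 ≤ Real.log 3 / k + (1 - k) ^ j * (200 * ρ) := by
    intro j
    have h1 : 0 ≤ Real.log 3 := Real.log_nonneg (by norm_num)
    have h2 : 0 ≤ 1 - k := by linarith
    positivity
  have hmain : ∀ j ≤ n, ∀ q ∈ Q (n - j), ∀ ζ : ℂ, ‖ζ‖ ≤ 200 * ρ →
      ‖pF b p q ζ‖ ≤ M * Real.exp (Real.log 3 / k + (1 - k) ^ j * (200 * ρ)) := by
    intro j
    induction j with
    | zero =>
      intro _ q hq ζ hζ
      rw [Nat.sub_zero] at hq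
      refine (hap n le_rfl q hq ζ).trans ?_
      have h1 : K * C ≤ M := by
        refine le_trans ?_ (le_max_left _ _)
        exact le_mul_of_one_le_right hKC (Real.one_le_exp (by norm_num))
      have h2 : Real.exp ‖ζ‖ ≤ Real.exp (Real.log 3 / k + (1 - k) ^ 0 * (200 * ρ)) := by
        refine Real.exp_le_exp.2 ?_
        rw [pow_zero, one_mul]
        have h3 : 0 ≤ Real.log 3 / k := div_nonneg (Real.log_nonneg (by norm_num)) hk0.le
        linarith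
      exact mul_le_mul h1 h2 (Real.exp_pos _).le hM0.le
    | succ j ih =>
      intro hj q hq ζ hζ
      have hi : n - (j + 1) < n := by omega
      have hi1 : n - (j + 1) + 1 = n - j := by omega
      obtain ⟨q', hq', c1, c2⟩ := hstep (n - (j + 1)) hi q hq ζ hζ
      rw [hi1] at hq'
      have hle : n - j ≤ n := Nat.sub_le _ _
      have hih := ih (by omega) q' hq'
      set g : ℝ := Real.log 3 / k + (1 - k) ^ j * (200 * ρ) with hg
      have hg0' : 0 ≤ g := hg0 j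
      have h13 : M ≤ M * Real.exp g := le_mul_of_one_le_right hM0.le (Real.one_le_exp hg0')
      have htc := three_circles (pF_diff b p q') hρ1 hM0 h13 (hb1 _ hle q' hq') hih
      have hs := hst q q' ζ c1 c2 (hQ _ hle q' hq').1 (hQ _ hle q' hq').2 _ htc
      refine hs.trans (le_of_eq ?_)
      rw [← hL, ← hk, pa_rec hM0]
      congr 2
      rw [hg, pow_succ]
      field_simp
      ring
  have hfin := hmain n le_rfl
  rw [Nat.sub_self] at hfin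
  -- the exponent
  have he1 : (1 - k) ^ n * (200 * ρ) ≤ 1 := by
    have h1 : (1 - k) ^ n ≤ Real.exp (-(k * n)) := by
      have h2 : 1 - k ≤ Real.exp (-k) := by
        have := Real.add_one_le_exp (-k)
        linarith
      calc (1 - k) ^ n ≤ Real.exp (-k) ^ n := pow_le_pow_left₀ (by linarith) h2 n
        _ = Real.exp (-(k * n)) := by
          rw [← Real.exp_nat_mul]
          congr 1
          ring
    have h2 : L ≤ k * n := by
      have h3 : k * L ^ 2 ≤ k * n := mul_le_mul_of_nonneg_left hn hk0.le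
      have h4' : k * L ^ 2 = Real.log 100 * L := by
        rw [hk]
        field_simp
      nlinarith
    calc (1 - k) ^ n * (200 * ρ) ≤ Real.exp (-(k * n)) * (200 * ρ) :=
          mul_le_mul_of_nonneg_right h1 h200.le
      _ ≤ Real.exp (-L) * (200 * ρ) :=
          mul_le_mul_of_nonneg_right (Real.exp_le_exp.2 (by linarith)) h200.le
      _ = 1 := by
          rw [Real.exp_neg, hL, Real.exp_log h200, inv_mul_cancel₀ h200.ne']
  have he2 : Real.log 3 / k ≤ L / 4 := by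
    have h1 : Real.log 3 / k = Real.log 3 * L / Real.log 100 := by
      rw [hk, div_div_eq_mul_div]
    rw [h1, div_le_div_iff₀ (by linarith) (by norm_num)]
    have := pa_log3
    nlinarith
  obtain ⟨q, hq⟩ := hQ0
  have hcau := Complex.norm_deriv_le_of_forall_mem_sphere_norm_le (f := pF b p q) (c := 0)
    (C := M * Real.exp (L / 4 + 1)) h200 (pF_diff b p q).diffContOnCl (fun z hz => by
      rw [mem_sphere_zero_iff_norm] at hz
      refine (hfin q hq z hz.le).trans ?_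
      exact mul_le_mul_of_nonneg_left (Real.exp_le_exp.2 (by linarith)) hM0.le)
  rw [(pF_deriv b p q 0).deriv, zero_smul, NormedSpace.exp_zero, one_mul] at hcau
  have h1 : NormedSpace.exp (ev b q) * b * b ^ p = NormedSpace.exp (ev b q) * b ^ (p + 1) := by
    rw [pow_succ]
    ring
  rw [h1] at hcau
  have h2 := (hQ 0 (Nat.zero_le _) q hq).2.trans hcau
  have h3 : M * Real.exp (L / 4 + 1) / (200 * ρ) =
      M * Real.exp 1 * Real.exp (-(3 / 4 * L)) := by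
    have h5 : 200 * ρ = Real.exp L := by rw [hL, Real.exp_log h200]
    rw [h5, div_eq_mul_inv, ← Real.exp_neg, mul_assoc, mul_assoc, ← Real.exp_add, ← Real.exp_add]
    congr 2
    ring
  rw [h3] at h2
  exact absurd h2 (not_le.2 hlarge)

end Pool.Agent.Work.MP_0d53be_an.Full
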