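import Pool.Agent.Work.MP_0d53be_an.Full.P.Mix

/-!
# P/Step: one step of the iteration

Let `b` be quasi-nilpotent, `p : ℕ`, `0 < c ≤ C*`. There is `ρ₀` such that for `ρ ≥ ρ₀`: if
`q, q' : Ex`, `ζ : ℂ`, `‖2 (q' - q)_0 - ζ‖ ≤ ρ`, `‖q' - q‖ ≤ 500 ρ`,
`‖exp(ev b q') b^p‖ ≤ C*`, `c ≤ ‖exp(ev b q') b^(p+1)‖`, and `U` is a real number with
`‖exp(ev b q') exp(z b) b^p‖ ≤ U` for all `‖z‖ ≤ 2ρ`, then
`‖exp(ev b q) exp(ζ b) b^p‖ ≤ 3 U`.

Proof. Let `y = q' - q`, `ζ' = 2 y_0`, and `x : Ex` with `x_0 = 0`, `x_j = - y_j` for `j ≥ 1`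
(`x = -(y - y_0 e_0)`, `lp.single`); `‖x‖ ≤ ‖y‖ ≤ 500 ρ`. `ev b (-y) = -ζ' b + ev b x`
(`x_0 (2b) = ...`: the first coordinate of `-y` contributes `-y_0 • (2b) = -ζ' • b`). So
`exp(ev b q) exp(ζ b) b^p = exp(ev b x) v`, `v = exp(ev b q') exp((ζ - ζ') b) b^p`, since
`ev b q = ev b q' + ev b (-y)`. Apply `mixing` with `N = 4000 ρ = 8 * 500 ρ`. Write
`F(z) = ‖exp(ev b q') exp(z b) b^p‖`: `‖exp((N conj y) b) v‖ = F(N conj y + ζ - ζ')` and
`‖v‖ ≤ U` (`‖ζ - ζ'‖ ≤ ρ`).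
(i) For `N ‖y‖ ≤ ρ`: `F ≤ U`. The corresponding part of the integral is at most
`(N/π) U ∫_ℂ e^{-N‖y‖²/2} = 2 U` (`gauss_moment` with `n = 0`).
(ii) For `N ‖y‖ > ρ`: choose `δ = 1/(16 * 4000)`. `QNb` gives `C_δ` with `‖b^j‖ ≤ C_δ δ^j`, so
`‖exp(z b)‖ ≤ ∑ |z|^j ‖b^j‖/j! ≤ C_δ e^{δ|z|}` and
`F(N conj y + ζ - ζ') ≤ C_δ e^{δ (N‖y‖ + ρ)} C* ≤ C_δ C* e^{2 δ N ‖y‖}`. As `‖y‖ > ρ/N = 1/4000 =
16 δ`, `2 δ N‖y‖ ≤ N‖y‖²/8`, so the integrand is at most `C_δ C* e^{-(3/8) N‖y‖²}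
≤ C_δ C* e^{-(3/8) ρ²/N} = C_δ C* e^{-(3/8) ρ/4000}`; the disc has area `π/4`, so this part is at most
`(N/4) C_δ C* e^{-(3/8)ρ/4000} = 1000 ρ C_δ C* e^{-(3/8) ρ/4000}`.
(iii) The error term: `C e^{-N/16} ‖v‖ ≤ C e^{-250 ρ} U`.
(iv) `U ≥ F(0) = ‖exp(ev b q') b^p‖ ≥ c/(‖b‖ + 1) > 0` (multiply by `b`). So for `ρ ≥ ρ₀`
(ii) `≤ U/2` and (iii) `≤ U/2`. Total `≤ 3 U`.
-/

set_option autoImplicit false

namespace Pool.Agent.Work.MP_0d53be_an.Full

open MeasureTheory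

variable {B : Type*} [NormedCommRing B] [NormedAlgebra ℂ B] [CompleteSpace B]

private theorem st_x (y : Ex) : ∃ x : Ex, x 0 = 0 ∧ ‖x‖ ≤ ‖y‖ ∧ ∀ j : ℕ, j ≠ 0 → x j = -y j := by
  have hle : ∀ j : ℕ, ‖(if j = 0 then (0 : ℂ) else -y j)‖ ≤ ‖y j‖ := by
    intro j
    split_ifs
    · rw [norm_zero]
      exact norm_nonneg _
    · rw [norm_neg]
  have hs : Summable (fun j : ℕ => ‖(if j = 0 then (0 : ℂ) else -y j)‖) :=
    Summable.of_nonneg_of_le (fun _ => norm_nonneg _) hle (ex_summable y)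
  refine ⟨⟨fun j => if j = 0 then 0 else -y j, memEx hs⟩, ?_, ?_, ?_⟩
  · show (if (0 : ℕ) = 0 then (0 : ℂ) else -y 0) = 0
    exact if_pos rfl
  · rw [norm_ex, norm_ex]
    exact Summable.tsum_le_tsum hle hs (ex_summable y)
  · intro j hj
    show (if j = 0 then (0 : ℂ) else -y j) = -y j
    exact if_neg hj

private theorem st_ev {b : B} (h : QNb b) (y x : Ex) (hx0 : x 0 = 0)
    (hx : ∀ j : ℕ, j ≠ 0 → x j = -y j) : ev b (-y) = (-(2 * y 0)) • b + ev b x := by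
  have h1 : ev b (-y - x) = ev b (-y) - ev b x := ev_sub h.pb _ _
  have h2 : ev b (-y - x) = (-(2 * y 0)) • b := by
    unfold ev
    rw [tsum_eq_single 0]
    · have h3 : (-y - x) 0 = - y 0 := by
        rw [lp.coeFn_sub, Pi.sub_apply, lp.coeFn_neg, Pi.neg_apply, hx0, sub_zero]
      rw [h3, zero_add, pow_one, smul_smul]
      congr 1
      ring
    · intro j hj
      have h3 : (-y - x) j = 0 := by
        rw [lp.coeFn_sub, Pi.sub_apply, lp.coeFn_neg, Pi.neg_apply, hx j hj, sub_self]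
      rw [h3, zero_smul]
  rw [← h2, h1, sub_add_cancel]

private theorem st_exp_add (x y : B) :
    NormedSpace.exp (x + y) = NormedSpace.exp x * NormedSpace.exp y := by
  let _ := NormedAlgebra.restrictScalars ℚ ℂ B
  exact NormedSpace.exp_add_of_commute (Commute.all x y)

private theorem st_exp_bound {b : B} (h : QNb b) : ∃ K : ℝ, 0 ≤ K ∧ ∀ z : ℂ,
    ‖NormedSpace.exp (z • b)‖ ≤ K * Real.exp (‖z‖ / 64000) := by
  obtain ⟨K, hK⟩ := h 64000 (by norm_num)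
  have hK0 : 0 ≤ K := le_trans (by positivity) (hK 0)
  refine ⟨K, hK0, fun z => ?_⟩
  rw [NormedSpace.exp_eq_tsum ℂ]
  have hs : HasSum (fun n : ℕ => K * ((‖z‖ / 64000) ^ n / (n.factorial : ℝ)))
      (K * Real.exp (‖z‖ / 64000)) := by
    rw [Real.exp_eq_exp_ℝ]
    exact (NormedSpace.expSeries_div_hasSum_exp (‖z‖ / 64000)).mul_left K
  refine tsum_of_norm_bounded hs fun n => ?_
  have h1 : ‖b ^ n‖ ≤ K / 64000 ^ n := by
    rw [le_div_iff₀ (by positivity), mul_comm]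
    exact hK n
  have h2 : (0 : ℝ) < n.factorial := by exact_mod_cast n.factorial_pos
  have h3 : ‖((n.factorial : ℂ))⁻¹‖ = (n.factorial : ℝ)⁻¹ := by
    rw [norm_inv, Complex.norm_natCast]
  rw [smul_pow, norm_smul, norm_smul, norm_pow, h3, div_pow]
  have h4 : ‖z‖ ^ n * ‖b ^ n‖ ≤ ‖z‖ ^ n * (K / 64000 ^ n) :=
    mul_le_mul_of_nonneg_left h1 (by positivity)
  calc (n.factorial : ℝ)⁻¹ * (‖z‖ ^ n * ‖b ^ n‖) ≤
      (n.factorial : ℝ)⁻¹ * (‖z‖ ^ n * (K / 64000 ^ n)) :=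
        mul_le_mul_of_nonneg_left h4 (by positivity)
    _ = K * (‖z‖ ^ n / 64000 ^ n / (n.factorial : ℝ)) := by
        field_simp

private theorem st_rho (K Cm : ℝ) {u0 : ℝ} (hu : 0 < u0) : ∃ ρ₀ : ℝ, ∀ ρ : ℝ, ρ₀ ≤ ρ → 0 < ρ ∧
    ρ * (K * Real.exp (-(3 / 32000 * ρ))) ≤ u0 / 2 ∧ Cm * Real.exp (-(250 * ρ)) ≤ 1 / 2 := by
  have a1 : Filter.Tendsto (fun ρ : ℝ => 3 / 32000 * ρ) Filter.atTop Filter.atTop :=
    Filter.tendsto_id.const_mul_atTop (by norm_num)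
  have a2 : Filter.Tendsto (fun ρ : ℝ => 250 * ρ) Filter.atTop Filter.atTop :=
    Filter.tendsto_id.const_mul_atTop (by norm_num)
  have t1 : Filter.Tendsto (fun ρ : ℝ => ρ * (K * Real.exp (-(3 / 32000 * ρ)))) Filter.atTop
      (nhds 0) := by
    have h1 := ((Real.tendsto_pow_mul_exp_neg_atTop_nhds_zero 1).comp a1).const_mul
      (K * (32000 / 3))
    rw [mul_zero] at h1
    refine h1.congr fun ρ => ?_
    show K * (32000 / 3) * ((3 / 32000 * ρ) ^ 1 * Real.exp (-(3 / 32000 * ρ))) = _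
    ring
  have t2 : Filter.Tendsto (fun ρ : ℝ => Cm * Real.exp (-(250 * ρ))) Filter.atTop (nhds 0) := by
    have h1 := (Real.tendsto_exp_neg_atTop_nhds_zero.comp a2).const_mul Cm
    rw [mul_zero] at h1
    exact h1
  have e1 := t1.eventually_le_const (show (0 : ℝ) < u0 / 2 by positivity)
  have e2 := t2.eventually_le_const (show (0 : ℝ) < 1 / 2 by norm_num)
  have e3 := Filter.eventually_gt_atTop (0 : ℝ)
  obtain ⟨ρ₀, hρ⟩ := Filter.eventually_atTop.1 (e3.and (e1.and e2))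
  exact ⟨ρ₀, fun ρ h => hρ ρ h⟩

private theorem st_gauss {N : ℝ} (hN : 0 < N) :
    ∫ y in Metric.closedBall (0 : ℂ) (1 / 2), Real.exp (-N * ‖y‖ ^ 2 / 2) ≤
      2 * Real.pi / N := by
  have h1 := gauss_moment (c := N / 2) (by positivity) 0
  have h2 : (fun y : ℂ => ‖y‖ ^ (2 * 0) * Real.exp (-(N / 2) * ‖y‖ ^ 2)) =
      fun y : ℂ => Real.exp (-N * ‖y‖ ^ 2 / 2) := by
    funext y
    rw [mul_zero, pow_zero, one_mul]
    congr 1
    ring
  rw [h2] at h1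
  have h3 : Real.pi * (Nat.factorial 0 : ℝ) / (N / 2) ^ (0 + 1) = 2 * Real.pi / N := by
    rw [Nat.factorial_zero, Nat.cast_one, zero_add, pow_one]
    field_simp
  rw [h3] at h1
  have hi : Integrable (fun y : ℂ => Real.exp (-N * ‖y‖ ^ 2 / 2)) := by
    by_contra hcon
    rw [integral_undef hcon] at h1
    have h4 : 0 < 2 * Real.pi / N := by positivity
    linarith
  rw [← h1]
  exact setIntegral_le_integral hi (Filter.Eventually.of_forall fun y => (Real.exp_pos _).le)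

/-- the integral over the disc. -/
private theorem st_int {N U E : ℝ} (hN : 0 < N) (hU : 0 ≤ U) {F : ℂ → ℝ}
    (hF0 : ∀ y, 0 ≤ F y)
    (hF : ∀ y ∈ Metric.closedBall (0 : ℂ) (1 / 2),
      Real.exp (-N * ‖y‖ ^ 2 / 2) * F y ≤ U * Real.exp (-N * ‖y‖ ^ 2 / 2) + E) :
    ∫ y in Metric.closedBall (0 : ℂ) (1 / 2), Real.exp (-N * ‖y‖ ^ 2 / 2) * F y ≤
      U * (2 * Real.pi / N) + volume.real (Metric.closedBall (0 : ℂ) (1 / 2)) * E := by
  have hcont : Continuous (fun y : ℂ => Real.exp (-N * ‖y‖ ^ 2 / 2)) := by fun_prop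
  have i1 : IntegrableOn (fun y : ℂ => U * Real.exp (-N * ‖y‖ ^ 2 / 2))
      (Metric.closedBall (0 : ℂ) (1 / 2)) :=
    (hcont.const_mul U).continuousOn.integrableOn_compact (isCompact_closedBall _ _)
  have i2 : IntegrableOn (fun _ : ℂ => E) (Metric.closedBall (0 : ℂ) (1 / 2)) :=
    continuous_const.continuousOn.integrableOn_compact (isCompact_closedBall _ _)
  have h1 : ∫ y in Metric.closedBall (0 : ℂ) (1 / 2), Real.exp (-N * ‖y‖ ^ 2 / 2) * F y ≤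
      ∫ y in Metric.closedBall (0 : ℂ) (1 / 2), (U * Real.exp (-N * ‖y‖ ^ 2 / 2) + E) := by
    refine integral_mono_of_nonneg
      (Filter.Eventually.of_forall fun y => mul_nonneg (Real.exp_pos _).le (hF0 y))
      (i1.add i2) ?_
    exact (ae_restrict_iff' Metric.isClosed_closedBall.measurableSet).2
      (Filter.Eventually.of_forall hF)
  rw [integral_add i1 i2, integral_const_mul, setIntegral_const, smul_eq_mul] at h1
  have h2 := mul_le_mul_of_nonneg_left (st_gauss hN) hU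
  linarith

theorem step {b : B} (h : QNb b) (p : ℕ) {c C : ℝ} (hc : 0 < c) :
    ∃ ρ₀ : ℝ, ∀ ρ : ℝ, ρ₀ ≤ ρ → ∀ (q q' : Ex) (ζ : ℂ), ‖2 * (q' - q) 0 - ζ‖ ≤ ρ →
      ‖q' - q‖ ≤ 500 * ρ → ‖NormedSpace.exp (ev b q') * b ^ p‖ ≤ C →
      c ≤ ‖NormedSpace.exp (ev b q') * b ^ (p + 1)‖ → ∀ U : ℝ,
      (∀ z : ℂ, ‖z‖ ≤ 2 * ρ →
        ‖NormedSpace.exp (ev b q') * NormedSpace.exp (z • b) * b ^ p‖ ≤ U) →
      ‖NormedSpace.exp (ev b q) * NormedSpace.exp (ζ • b) * b ^ p‖ ≤ 3 * U := by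
  obtain ⟨Cm, hCm1, hmix⟩ := mixing h
  obtain ⟨K, hK0, hK⟩ := st_exp_bound h
  have hb1 : 0 < ‖b‖ + 1 := by
    have := norm_nonneg b
    linarith
  have hpi := Real.pi_pos
  obtain ⟨ρ₀, hρ₀⟩ := st_rho (4000 / Real.pi *
    volume.real (Metric.closedBall (0 : ℂ) (1 / 2)) * (K * C)) Cm
    (show 0 < c / (‖b‖ + 1) from div_pos hc hb1)
  refine ⟨ρ₀, ?_⟩
  intro ρ hρ q q' ζ hζ hqq hC hcl U hU
  obtain ⟨hρ0, hr1, hr2⟩ := hρ₀ ρ hρ
  -- the lower bound of `U`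
  have hF0 : ‖NormedSpace.exp (ev b q') * b ^ p‖ ≤ U := by
    have h1 := hU 0 (by rw [norm_zero]; positivity)
    rw [zero_smul, NormedSpace.exp_zero, mul_one] at h1
    exact h1
  have hU0 : 0 ≤ U := (norm_nonneg _).trans hF0
  have hC0 : 0 ≤ C := (norm_nonneg _).trans hC
  have hUc : c / (‖b‖ + 1) ≤ U := by
    rw [div_le_iff₀ hb1]
    have h1 : ‖NormedSpace.exp (ev b q') * b ^ (p + 1)‖ ≤ U * ‖b‖ := by
      rw [pow_succ, ← mul_assoc]
      exact (norm_mul_le _ _).trans (mul_le_mul_of_nonneg_right hF0 (norm_nonneg _))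
    nlinarith
  -- the decomposition
  obtain ⟨x, hx0, hxn, hx⟩ := st_x (q' - q)
  have hev := st_ev h (q' - q) x hx0 hx
  have hq : NormedSpace.exp (ev b q) = NormedSpace.exp (ev b q') *
      (NormedSpace.exp ((-(2 * (q' - q) 0)) • b) * NormedSpace.exp (ev b x)) := by
    have h1 : q = q' + -(q' - q) := by abel
    have h2 : NormedSpace.exp (ev b q) = NormedSpace.exp (ev b (q' + -(q' - q))) := by
      rw [← h1]
    rw [h2, exp_ev_add h.pb, hev, st_exp_add]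
  set w : ℂ := ζ - 2 * (q' - q) 0 with hw
  have hwn : ‖w‖ ≤ ρ := by
    rw [hw, norm_sub_rev]
    exact hζ
  have hexp : ∀ z z' : ℂ, NormedSpace.exp (z • b) * NormedSpace.exp (z' • b) =
      NormedSpace.exp ((z + z') • b) := by
    intro z z'
    rw [add_smul, st_exp_add]
  set v : B := NormedSpace.exp (ev b q') * NormedSpace.exp (w • b) * b ^ p with hv
  have hmain : NormedSpace.exp (ev b q) * NormedSpace.exp (ζ • b) * b ^ p =
      NormedSpace.exp (ev b x) * v := by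
    have h1 : NormedSpace.exp (w • b) =
        NormedSpace.exp (ζ • b) * NormedSpace.exp ((-(2 * (q' - q) 0)) • b) := by
      rw [hexp, hw, ← sub_eq_add_neg]
    rw [hq, hv, h1]
    ring
  rw [hmain]
  have hvz : ∀ z : ℂ, NormedSpace.exp (z • b) * v =
      NormedSpace.exp (ev b q') * NormedSpace.exp ((z + w) • b) * b ^ p := by
    intro z
    rw [hv, ← hexp]
    ring
  have hvU : ‖v‖ ≤ U := hU w (by linarith)
  have hN : 0 < 4000 * ρ := by positivity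
  have hx8 : 8 * ‖x‖ ≤ 4000 * ρ := by linarith
  refine (hmix (4000 * ρ) hN x hx0 hx8 v).trans ?_
  have hint := st_int (N := 4000 * ρ) (U := U) (E := K * C * Real.exp (-(3 / 32000 * ρ)))
    (F := fun y => ‖NormedSpace.exp ((((4000 * ρ : ℝ) : ℂ) * (starRingEnd ℂ) y : ℂ) • b) * v‖)
    hN hU0 (fun _ => norm_nonneg _) ?_
  · have h1 : 4000 * ρ / Real.pi * (∫ y in Metric.closedBall (0 : ℂ) (1 / 2),
        Real.exp (-(4000 * ρ) * ‖y‖ ^ 2 / 2) *
        ‖NormedSpace.exp ((((4000 * ρ : ℝ) : ℂ) * (starRingEnd ℂ) y : ℂ) • b) * v‖) ≤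
        2 * U + ρ * (4000 / Real.pi * volume.real (Metric.closedBall (0 : ℂ) (1 / 2)) * (K * C) *
          Real.exp (-(3 / 32000 * ρ))) := by
      refine (mul_le_mul_of_nonneg_left hint (by positivity)).trans (le_of_eq ?_)
      field_simp
    have h2 : Cm * Real.exp (-(4000 * ρ) / 16) * ‖v‖ ≤ 1 / 2 * U := by
      have h3 : -(4000 * ρ) / 16 = -(250 * ρ) := by ring
      rw [h3]
      exact mul_le_mul hr2 hvU (norm_nonneg _) (by norm_num)
    linarith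
  · intro y hy
    show Real.exp (-(4000 * ρ) * ‖y‖ ^ 2 / 2) *
      ‖NormedSpace.exp ((((4000 * ρ : ℝ) : ℂ) * (starRingEnd ℂ) y : ℂ) • b) * v‖ ≤ _
    rw [hvz]
    have hE0 : 0 ≤ K * C * Real.exp (-(3 / 32000 * ρ)) := by positivity
    have hG0 : 0 ≤ U * Real.exp (-(4000 * ρ) * ‖y‖ ^ 2 / 2) := by positivity
    have hzn : ‖((4000 * ρ : ℝ) : ℂ) * (starRingEnd ℂ) y + w‖ ≤ 4000 * ρ * ‖y‖ + ρ := by
      refine (norm_add_le _ _).trans (add_le_add (le_of_eq ?_) hwn)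
      rw [norm_mul, Complex.norm_real, Real.norm_of_nonneg hN.le, RCLike.norm_conj]
    rcases le_or_gt (4000 * ρ * ‖y‖) ρ with hsm | hbig
    · have h1 := hU _ (hzn.trans (show 4000 * ρ * ‖y‖ + ρ ≤ 2 * ρ by linarith))
      have h2 := mul_le_mul_of_nonneg_left h1 (Real.exp_pos (-(4000 * ρ) * ‖y‖ ^ 2 / 2)).le
      linarith
    · have hy0 : 1 < 4000 * ‖y‖ := by
        by_contra hcon
        push Not at hcon
        have h1 := mul_le_mul_of_nonneg_left hcon hρ0.le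
        linarith
      have h1 : ‖NormedSpace.exp (ev b q') *
          NormedSpace.exp ((((4000 * ρ : ℝ) : ℂ) * (starRingEnd ℂ) y + w) • b) * b ^ p‖ ≤
          K * C * Real.exp (ρ * ‖y‖ / 8) := by
        have h2 := hK (((4000 * ρ : ℝ) : ℂ) * (starRingEnd ℂ) y + w)
        have h3 : Real.exp (‖((4000 * ρ : ℝ) : ℂ) * (starRingEnd ℂ) y + w‖ / 64000) ≤
            Real.exp (ρ * ‖y‖ / 8) := by
          refine Real.exp_le_exp.2 ?_
          linarith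
        have h4 : NormedSpace.exp (ev b q') *
            NormedSpace.exp ((((4000 * ρ : ℝ) : ℂ) * (starRingEnd ℂ) y + w) • b) * b ^ p =
            NormedSpace.exp ((((4000 * ρ : ℝ) : ℂ) * (starRingEnd ℂ) y + w) • b) *
            (NormedSpace.exp (ev b q') * b ^ p) := by ring
        rw [h4]
        refine (norm_mul_le _ _).trans ?_
        refine (mul_le_mul h2 hC (norm_nonneg _) (by positivity)).trans ?_
        have h5 := mul_le_mul_of_nonneg_left h3 (mul_nonneg hK0 hC0)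
        calc K * Real.exp (‖((4000 * ρ : ℝ) : ℂ) * (starRingEnd ℂ) y + w‖ / 64000) * C =
            K * C * Real.exp (‖((4000 * ρ : ℝ) : ℂ) * (starRingEnd ℂ) y + w‖ / 64000) := by ring
          _ ≤ _ := h5
      have h2 := mul_le_mul_of_nonneg_left h1 (Real.exp_pos (-(4000 * ρ) * ‖y‖ ^ 2 / 2)).le
      have h3 : Real.exp (-(4000 * ρ) * ‖y‖ ^ 2 / 2) * (K * C * Real.exp (ρ * ‖y‖ / 8)) =
          K * C * Real.exp (-(4000 * ρ) * ‖y‖ ^ 2 / 2 + ρ * ‖y‖ / 8) := by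
        rw [Real.exp_add]
        ring
      rw [h3] at h2
      have h4 : Real.exp (-(4000 * ρ) * ‖y‖ ^ 2 / 2 + ρ * ‖y‖ / 8) ≤
          Real.exp (-(3 / 32000 * ρ)) := by
        refine Real.exp_le_exp.2 ?_
        have h5 : 0 ≤ ρ * ((4000 * ‖y‖ - 1) * (4000 * ‖y‖)) := by
          have : 0 ≤ 4000 * ‖y‖ := by positivity
          exact mul_nonneg hρ0.le (mul_nonneg (by linarith) this)
        have h6 : 0 ≤ ρ * (4000 * ‖y‖ - 1) := mul_nonneg hρ0.le (by linarith)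
        nlinarith
      have h5 := mul_le_mul_of_nonneg_left h4 (mul_nonneg hK0 hC0)
      linarith

end Pool.Agent.Work.MP_0d53be_an.Full
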